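import Mathlib

set_option autoImplicit false

namespace FacetRep

/-- Euclidean `d`-space -/
abbrev E (d : ℕ) := EuclideanSpace ℝ (Fin d)

/-- A convex polytope in `E d`: a bounded intersection of finitely many closed half-spaces. -/
def IsPolytope {d : ℕ} (P : Set (E d)) : Prop :=
  Bornology.IsBounded P ∧
    ∃ (m : ℕ) (φ : Fin m → (E d →ₗ[ℝ] ℝ)) (b : Fin m → ℝ), P = {x | ∀ i, φ i x ≤ b i}

/-- A centrally symmetric convex polytope (centred at the origin) with nonempty interior. -/
structure IsCSPolytope {d : ℕ} (P : Set (E d)) : Prop where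
  polytope : IsPolytope P
  symm : ∀ x ∈ P, -x ∈ P
  interior_nonempty : (interior P).Nonempty

/-- `F` is a facet of `P`: a nonempty face (intersection with a supporting hyperplane)
of dimension `d - 1`. -/
def IsFacet {d : ℕ} (P F : Set (E d)) : Prop :=
  F.Nonempty ∧
  (∃ (φ : E d →ₗ[ℝ] ℝ) (b : ℝ), (∀ x ∈ P, φ x ≤ b) ∧ F = {x | x ∈ P ∧ φ x = b}) ∧
  Module.finrank ℝ (vectorSpan ℝ F) + 1 = d

/-- number of facets -/
noncomputable def numFacets {d : ℕ} (P : Set (E d)) : ℕ := {F : Set (E d) | IsFacet P F}.ncard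

/-- the finite set `K ⊆ ∂P` represents all facets of `P` -/
def Represents {d : ℕ} (P : Set (E d)) (K : Finset (E d)) : Prop :=
  (∀ x ∈ K, x ∈ frontier P) ∧ ∀ F : Set (E d), IsFacet P F → ∃ x ∈ K, x ∈ F

/-- least size of a finite set `K ⊆ ∂P` representing all facets -/
noncomputable def repNumber {d : ℕ} (P : Set (E d)) : ℕ :=
  sInf {k | ∃ K : Finset (E d), Represents P K ∧ K.card = k}

/-- all the values `min_K |K| / |P|` -/
def ratios (d : ℕ) : Set ℝ :=
  {r | ∃ P : Set (E d), IsCSPolytope P ∧ r = (repNumber P : ℝ) / (numFacets P : ℝ)}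

/-- the number `L_d` -/
noncomputable def L (d : ℕ) : ℝ := sSup (ratios d)

end FacetRep
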