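import Mathlib

set_option autoImplicit false

namespace FacetRep

open SimpleGraph

universe u

variable {V : Type u} [Fintype V] [DecidableEq V]

/-- join of a graph with a complete graph on `k` vertices -/
def joinK (G : SimpleGraph V) (k : ℕ) : SimpleGraph (V ⊕ Fin k) where
  Adj x y := match x, y with
    | Sum.inl a, Sum.inl b => G.Adj a b
    | Sum.inl _, Sum.inr _ => True
    | Sum.inr _, Sum.inl _ => True
    | Sum.inr i, Sum.inr j => i ≠ j
  symm := ⟨by
    intro x y h
    cases x <;> cases y <;> simp_all [G.adj_comm, eq_comm]⟩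
  loopless := ⟨by
    intro x
    cases x <;> simp⟩

/-- the labelling hypothesis: removing any set `U` of vertices leaves at most
`max 1 (2|U|)` components -/
def FewComps (G : SimpleGraph V) : Prop :=
  ∀ U : Finset V, ∃ l : V → ℕ, (∀ a, a ∉ U → l a < max 1 (2 * U.card)) ∧
    ∀ (κ : Type u) (χ : V → κ), (∀ x y, x ∉ U → y ∉ U → G.Adj x y → χ x = χ y) →
      ∀ a b, a ∉ U → b ∉ U → l a = l b → χ a = χ b

lemma no_violator (G : SimpleGraph V) (hG : FewComps G) (k : ℕ)
    (hpar : Even (Fintype.card V + k)) (hk : Fintype.card V ≤ 3 * k + 5)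
    (s : Set (V ⊕ Fin k)) : ¬ (joinK G k).IsTutteViolator s := by
  classical
  intro hviol
  unfold IsTutteViolator at hviol
  set H := ((⊤ : (joinK G k).Subgraph).deleteVerts s).coe with hH
  have hverts : ((⊤ : (joinK G k).Subgraph).deleteVerts s).verts = sᶜ := by
    ext x; simp
  have hadj : ∀ x y : ((⊤ : (joinK G k).Subgraph).deleteVerts s).verts,
      (joinK G k).Adj x.1 y.1 → H.Adj x y := by
    intro x y hxy
    have hx := (Set.ext_iff.mp hverts _).mp x.2
    have hy := (Set.ext_iff.mp hverts _).mp y.2
    simp only [hH, Subgraph.coe_adj, Subgraph.deleteVerts_adj, Subgraph.verts_top, Subgraph.top_adj]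
    exact ⟨trivial, hx, trivial, hy, hxy⟩
  have hparity := odd_ncard_oddComponents (G := H)
  have hcardV : Nat.card ((⊤ : (joinK G k).Subgraph).deleteVerts s).verts
      = Fintype.card V + k - s.ncard := by
    rw [Nat.card_coe_set_eq, hverts, Set.ncard_compl]
    simp
  have hsle : s.ncard ≤ Fintype.card V + k := by
    have := Set.ncard_le_card s
    simpa using this
  by_cases hcase : ∃ i : Fin k, Sum.inr i ∉ s
  · obtain ⟨i, hi⟩ := hcase
    have hi' : (Sum.inr i : V ⊕ Fin k) ∈ ((⊤ : (joinK G k).Subgraph).deleteVerts s).verts := by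
      rw [hverts]; exact hi
    have hreach : ∀ x : ((⊤ : (joinK G k).Subgraph).deleteVerts s).verts,
        H.Reachable x ⟨Sum.inr i, hi'⟩ := by
      intro x
      by_cases hx : x = ⟨Sum.inr i, hi'⟩
      · rw [hx]
      · refine (hadj x ⟨Sum.inr i, hi'⟩ ?_).reachable
        obtain ⟨x, hxm⟩ := x
        cases x with
        | inl a => exact trivial
        | inr j =>
          intro hji
          exact hx (by subst hji; rfl)
    have hsub : Subsingleton H.ConnectedComponent := by
      refine ⟨?_⟩
      intro C C'
      induction C using ConnectedComponent.ind with | _ x =>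
      induction C' using ConnectedComponent.ind with | _ y =>
      exact ConnectedComponent.sound ((hreach x).trans (hreach y).symm)
    have hle1 : H.oddComponents.ncard ≤ 1 := by
      rw [Set.ncard_le_one]
      intro a _ b _
      exact Subsingleton.elim a b
    have hs0 : s.ncard = 0 := by omega
    rw [hcardV, hs0, Nat.sub_zero] at hparity
    have hone : H.oddComponents.ncard = 1 := by omega
    rw [hone] at hparity
    exact (Nat.not_odd_iff_even.mpr hpar) (hparity.mp odd_one)
  · push Not at hcase
    set U : Finset V := Finset.univ.filter (fun a => Sum.inl a ∈ s) with hU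
    have hscard : s.ncard = U.card + k := by
      have h1 : s = (↑(U.image (Sum.inl : V → V ⊕ Fin k) ∪
          (Finset.univ : Finset (Fin k)).image (Sum.inr : Fin k → V ⊕ Fin k)) : Set (V ⊕ Fin k)) := by
        ext x
        cases x with
        | inl a => simp [hU]
        | inr i => simp [hcase i]
      rw [h1, Set.ncard_coe_finset, Finset.card_union_of_disjoint]
      · rw [Finset.card_image_of_injective _ Sum.inl_injective,
          Finset.card_image_of_injective _ Sum.inr_injective]
        simp
      · rw [Finset.disjoint_left]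
        intro x hx hx'
        simp only [Finset.mem_image] at hx hx'
        obtain ⟨a, _, rfl⟩ := hx
        obtain ⟨b, _, hb⟩ := hx'
        cases hb
    obtain ⟨l, hl1, hl2⟩ := hG U
    let χ : V → Option H.ConnectedComponent := fun a =>
      if h : (Sum.inl a : V ⊕ Fin k) ∈ ((⊤ : (joinK G k).Subgraph).deleteVerts s).verts then
        some (H.connectedComponentMk ⟨Sum.inl a, h⟩) else none
    have hmemU : ∀ a, a ∉ U → (Sum.inl a : V ⊕ Fin k) ∈
        ((⊤ : (joinK G k).Subgraph).deleteVerts s).verts := by
      intro a ha
      rw [hverts]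
      simpa [hU] using ha
    have hχ := hl2 _ χ (by
      intro x y hx hy hxy
      simp only [χ, dif_pos (hmemU x hx), dif_pos (hmemU y hy)]
      congr 1
      apply ConnectedComponent.sound
      exact (hadj ⟨_, hmemU x hx⟩ ⟨_, hmemU y hy⟩ hxy).reachable)
    -- representatives
    have hrep : ∀ C : H.ConnectedComponent, ∃ a, ∃ ha : a ∉ U,
        C = H.connectedComponentMk ⟨Sum.inl a, hmemU a ha⟩ := by
      intro C
      induction C using ConnectedComponent.ind with | _ x =>
      obtain ⟨x, hx⟩ := x
      cases x with
      | inl a =>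
        refine ⟨a, ?_, rfl⟩
        rw [hverts] at hx
        simpa [hU] using hx
      | inr i =>
        exfalso
        rw [hverts] at hx
        exact hx (hcase i)
    choose r hr1 hr2 using hrep
    have hrinj : ∀ C C' : H.ConnectedComponent, l (r C) = l (r C') → C = C' := by
      intro C C' h
      have := hχ (r C) (r C') (hr1 C) (hr1 C') h
      simp only [χ, dif_pos (hmemU _ (hr1 C)), dif_pos (hmemU _ (hr1 C'))] at this
      rw [hr2 C, hr2 C']
      exact Option.some_injective _ this
    have hcomp1 : H.oddComponents.ncard ≤ max 1 (2 * U.card) := by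
      have h1 : H.oddComponents.ncard ≤ ((Finset.range (max 1 (2 * U.card)) : Finset ℕ) : Set ℕ).ncard := by
        apply Set.ncard_le_ncard_of_injOn (fun C => l (r C))
        · intro C _
          simp only [Finset.coe_range, Set.mem_Iio]
          exact hl1 _ (hr1 C)
        · intro C _ C' _ h
          exact hrinj C C' h
      simpa using h1
    have hcomp2 : H.oddComponents.ncard ≤ Fintype.card V - U.card := by
      have h1 : H.oddComponents.ncard ≤ ((Uᶜ : Finset V) : Set V).ncard := by
        apply Set.ncard_le_ncard_of_injOn (fun C => r C)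
        · intro C _
          simpa using hr1 C
        · intro C _ C' _ h
          simp only at h
          exact hrinj C C' (by rw [h])
        
      rw [Set.ncard_coe_finset, Finset.card_compl] at h1
      exact h1
    have hUle : U.card ≤ Fintype.card V := Finset.card_le_univ U
    rw [hcardV, hscard] at hparity
    rw [hscard] at hviol
    have e1 : Fintype.card V + k - (U.card + k) = Fintype.card V - U.card := by omega
    rw [e1] at hparity
    have hpar2 : (Fintype.card V - U.card) % 2 = (H.oddComponents.ncard) % 2 := by
      rcases Nat.even_or_odd (H.oddComponents.ncard) with h | h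
      · have : ¬ Odd (Fintype.card V - U.card) := fun h' => (Nat.not_odd_iff_even.mpr h) (hparity.mpr h')
        rw [Nat.not_odd_iff_even] at this
        rw [Nat.even_iff] at this h
        omega
      · have := hparity.mp h
        rw [Nat.odd_iff] at this h
        omega
    have hpar3 : (Fintype.card V + k) % 2 = 0 := Nat.even_iff.mp hpar
    rcases Nat.eq_zero_or_pos U.card with h0 | hpos
    · rw [h0] at hcomp1 hpar2 hviol
      simp only [mul_zero] at hcomp1
      have : max 1 0 = 1 := rfl
      omega
    · have : max 1 (2 * U.card) = 2 * U.card := by omega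
      omega

/-- cover the vertices by few cells (vertices and edges) -/
theorem exists_cells (G : SimpleGraph V) (hG : FewComps G) (hn : 3 ≤ Fintype.card V) :
    ∃ T : Finset (Finset V), (∀ t ∈ T, (∃ a, t = {a}) ∨ (∃ a b, G.Adj a b ∧ t = {a, b})) ∧
      (∀ a, ∃ t ∈ T, a ∈ t) ∧ 3 * T.card ≤ 2 * Fintype.card V := by
  classical
  obtain ⟨k, hk1, hk2, hpar⟩ : ∃ k, 3 * k ≤ Fintype.card V ∧ Fintype.card V ≤ 3 * k + 5 ∧
      Even (Fintype.card V + k) := by
    set n := Fintype.card V
    rcases Nat.even_or_odd (n + n / 3) with h | h
    · exact ⟨n / 3, by omega, by omega, h⟩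
    · refine ⟨n / 3 - 1, by omega, by omega, ?_⟩
      rw [Nat.odd_iff] at h
      rw [Nat.even_iff]
      omega
  obtain ⟨M, hM⟩ := (tutte (G := joinK G k)).mpr (no_violator G hG k hpar hk2)
  -- partner function
  have hpart : ∀ v : V ⊕ Fin k, ∃ w, M.Adj v w ∧ ∀ w', M.Adj v w' → w' = w := by
    intro v
    have := hM.1 (hM.2 v)
    obtain ⟨w, hw, hw'⟩ := this
    exact ⟨w, hw, fun w' h => hw' w' h⟩
  choose p hp1 hp2 using hpart
  have hpp : ∀ v, p (p v) = v := by
    intro v
    exact (hp2 (p v) v (hp1 v).symm).symm
  have hpne : ∀ v, p v ≠ v := by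
    intro v h
    have := hp1 v
    rw [h] at this
    exact M.loopless.irrefl v this
  -- trace of an edge
  let tr : (V ⊕ Fin k) → Finset V := fun v => Finset.univ.filter (fun a => Sum.inl a = v ∨ Sum.inl a = p v)
  let e : (V ⊕ Fin k) → Finset (V ⊕ Fin k) := fun v => {v, p v}
  have htre : ∀ v, tr v = Finset.univ.filter (fun a => (Sum.inl a : V ⊕ Fin k) ∈ e v) := by
    intro v
    ext a
    simp [tr, e]
  have hep : ∀ v, e (p v) = e v := by
    intro v
    simp only [e, hpp]
    exact Finset.pair_comm _ _
  have hcardE : 2 * (Finset.univ.image e).card ≤ Fintype.card V + k := by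
    have := Finset.mul_card_image_le_card (s := (Finset.univ : Finset (V ⊕ Fin k))) (f := e) 2 (by
      intro y hy
      obtain ⟨v, _, rfl⟩ := Finset.mem_image.mp hy
      have hsub : ({v, p v} : Finset (V ⊕ Fin k)) ⊆ Finset.univ.filter (fun x => e x = e v) := by
        intro x hx
        simp only [Finset.mem_insert, Finset.mem_singleton] at hx
        rcases hx with rfl | rfl
        · simp
        · simp [hep]
      have := Finset.card_le_card hsub
      rw [Finset.card_pair (hpne v).symm] at this
      exact this)
    simpa using this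
  refine ⟨((Finset.univ.image e).image (fun s => Finset.univ.filter (fun a => (Sum.inl a : V ⊕ Fin k) ∈ s))).filter
    (fun t => t.Nonempty), ?_, ?_, ?_⟩
  · intro t ht
    rw [Finset.mem_filter, Finset.mem_image] at ht
    obtain ⟨⟨s, hs, rfl⟩, hne⟩ := ht
    obtain ⟨v, _, rfl⟩ := Finset.mem_image.mp hs
    obtain ⟨a, ha⟩ := hne
    simp only [Finset.mem_filter, Finset.mem_univ, true_and, e, Finset.mem_insert,
      Finset.mem_singleton] at ha
    -- we may assume v = inl a
    have key : ∀ a : V, ∀ v, v = Sum.inl a → 
        (∃ a', (Finset.univ.filter (fun a => (Sum.inl a : V ⊕ Fin k) ∈ e v)) = {a'}) ∨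
        (∃ a' b', G.Adj a' b' ∧ (Finset.univ.filter (fun a => (Sum.inl a : V ⊕ Fin k) ∈ e v)) = {a', b'}) := by
      intro a v hv
      subst hv
      rcases hpb : p (Sum.inl a) with b | i
      · right
        refine ⟨a, b, ?_, ?_⟩
        · have := (hp1 (Sum.inl a)).adj_sub
          rw [hpb] at this
          exact this
        · ext x
          simp [e, hpb]
      · left
        refine ⟨a, ?_⟩
        ext x
        simp [e, hpb]
    rcases ha with ha | ha
    · exact key a v ha.symm
    · have := key a (p v) ha.symm
      rw [hep] at this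
      exact this
  · intro a
    refine ⟨Finset.univ.filter (fun x => (Sum.inl x : V ⊕ Fin k) ∈ e (Sum.inl a)), ?_, ?_⟩
    · rw [Finset.mem_filter]
      refine ⟨Finset.mem_image_of_mem _ (Finset.mem_image_of_mem _ (Finset.mem_univ _)), ⟨a, ?_⟩⟩
      simp [e]
    · simp [e]
  · have h1 := Finset.card_filter_le ((Finset.univ.image e).image (fun s => Finset.univ.filter (fun a => (Sum.inl a : V ⊕ Fin k) ∈ s)))
      (fun t => t.Nonempty)
    have h2 := Finset.card_image_le (s := Finset.univ.image e)
      (f := (fun s => Finset.univ.filter (fun a => (Sum.inl a : V ⊕ Fin k) ∈ s)))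
    omega

end FacetRep
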