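import Pool.Agent.V11151.FR.Vert
import Pool.Agent.V11151.FR.Graph

set_option autoImplicit false
set_option linter.unusedSectionVars false

namespace FacetRep

open Module

universe u

variable {V : Type u} [NormedAddCommGroup V] [NormedSpace ℝ V] [FiniteDimensional ℝ V]

/-- irredundant symmetric system -/
structure Irr (A : Finset (V →ₗ[ℝ] ℝ)) : Prop where
  symm : ∀ a ∈ A, -a ∈ A
  irr : ∀ a ∈ A, ∃ x, 1 < a x ∧ ∀ b ∈ A, b ≠ a → b x ≤ 1
  spans : ∀ w, (∀ a ∈ A, a w = 0) → w = 0

lemma Irr.inner {A : Finset (V →ₗ[ℝ] ℝ)} (hA : Irr A) :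
    ∀ a ∈ A, ∃ p, a p = 1 ∧ ∀ b ∈ A, b ≠ a → b p < 1 := by
  intro a ha
  obtain ⟨x, hx1, hx2⟩ := hA.irr a ha
  have hpos : 0 < a x := by linarith
  refine ⟨(a x)⁻¹ • x, ?_, ?_⟩
  · rw [map_smul, smul_eq_mul, inv_mul_cancel₀ hpos.ne']
  · intro b hb hne
    rw [map_smul, smul_eq_mul, ← div_eq_inv_mul, div_lt_one hpos]
    linarith [hx2 b hb hne]

lemma Irr.ne_zero {A : Finset (V →ₗ[ℝ] ℝ)} (hA : Irr A) : ∀ a ∈ A, a ≠ 0 := by
  rintro a ha rfl
  obtain ⟨p, hp, _⟩ := hA.inner 0 ha
  simp at hp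

lemma Irr.exists_e {A : Finset (V →ₗ[ℝ] ℝ)} (hA : Irr A) : ∃ e : V, ∀ a ∈ A, a e ≠ 0 := by
  classical
  have h := Subspace.biUnion_ne_univ_of_top_notMem (k := ℝ) (E := V)
    (s := A.image (fun a => LinearMap.ker a))
    (by
      intro h
      obtain ⟨a, ha, hk⟩ := Finset.mem_image.mp h
      exact hA.ne_zero a ha (LinearMap.ker_eq_top.mp hk))
  obtain ⟨e, he⟩ := (Set.ne_univ_iff_exists_notMem _).mp h
  refine ⟨e, ?_⟩
  intro a ha h0
  apply he
  simp only [Set.mem_iUnion]
  exact ⟨LinearMap.ker a, Finset.mem_image_of_mem _ ha, h0⟩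

/-- half of the system -/
noncomputable def half (A : Finset (V →ₗ[ℝ] ℝ)) (e : V) : Finset (V →ₗ[ℝ] ℝ) := by
  classical
  exact A.filter (fun a => 0 < a e)

lemma mem_half {A : Finset (V →ₗ[ℝ] ℝ)} {e : V} {a : V →ₗ[ℝ] ℝ} :
    a ∈ half A e ↔ a ∈ A ∧ 0 < a e := by
  classical
  simp [half]

/-- contact graph of pairs of opposite facets -/
def cgraph (A : Finset (V →ₗ[ℝ] ℝ)) (e : V) : SimpleGraph (half A e) where
  Adj a b := a ≠ b ∧ ∃ z, (∀ f ∈ A, f z ≤ 1) ∧ |a.1 z| = 1 ∧ |b.1 z| = 1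
  symm := ⟨by
    rintro a b ⟨h, z, h1, h2, h3⟩
    exact ⟨h.symm, z, h1, h3, h2⟩⟩
  loopless := ⟨by
    rintro a ⟨h, _⟩
    exact h rfl⟩

lemma vis {A : Finset (V →ₗ[ℝ] ℝ)} (hA : Irr A) {e : V} (he : ∀ a ∈ A, a e ≠ 0)
    (U : Finset (half A e)) {κ : Type*} (χ : half A e → κ)
    (hχ : ∀ x y, x ∉ U → y ∉ U → (cgraph A e).Adj x y → χ x = χ y)
    (u : V) (lam : ℝ) (hlam : 0 ≤ lam) (hU : ∀ s ∈ U, |s.1 u| ≤ lam)
    (a b : half A e) (ha : lam < |a.1 u|) (hb : lam < |b.1 u|) : χ a = χ b := by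
  classical
  let rep : (V →ₗ[ℝ] ℝ) → (V →ₗ[ℝ] ℝ) := fun f => if 0 < f e then f else -f
  have hrepA : ∀ f ∈ A, rep f ∈ half A e := by
    intro f hf
    simp only [rep]
    split_ifs with h
    · exact mem_half.mpr ⟨hf, h⟩
    · refine mem_half.mpr ⟨hA.symm f hf, ?_⟩
      have := he f hf
      simp only [LinearMap.neg_apply]
      push Not at h
      have := lt_of_le_of_ne h this
      linarith
  have habs : ∀ f : V →ₗ[ℝ] ℝ, ∀ z, |rep f z| = |f z| := by
    intro f z
    simp only [rep]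
    split_ifs with h
    · rfl
    · simp
  let χ' : (V →ₗ[ℝ] ℝ) → Option κ := fun f => if h : rep f ∈ half A e then some (χ ⟨rep f, h⟩) else none
  have hχ' : ∀ f (hf : f ∈ A), χ' f = some (χ ⟨rep f, hrepA f hf⟩) := by
    intro f hf
    simp only [χ', dif_pos (hrepA f hf)]
  have hconn := conn A (fun a ha => by
      obtain ⟨p, hp1, hp2⟩ := hA.inner a ha
      refine ⟨p, ?_, hp1⟩
      intro b hb
      by_cases h : b = a
      · rw [h, hp1]
      · exact (hp2 b hb h).le) u lam hlam χ' (by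
    intro f hf g hg hfu hgu ⟨z, hz1, hz2, hz3⟩
    rw [hχ' f hf, hχ' g hg]
    congr 1
    have hnot : ∀ f (hf : f ∈ A), lam < f u → (⟨rep f, hrepA f hf⟩ : half A e) ∉ U := by
      intro f hf hfu hmem
      have := hU _ hmem
      simp only at this
      rw [habs] at this
      have := le_abs_self (f u)
      linarith
    by_cases heq : (⟨rep f, hrepA f hf⟩ : half A e) = ⟨rep g, hrepA g hg⟩
    · rw [heq]
    · apply hχ _ _ (hnot f hf hfu) (hnot g hg hgu)
      refine ⟨heq, z, hz1, ?_, ?_⟩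
      · simp only [habs, hz2, abs_one]
      · simp only [habs, hz3, abs_one])
  -- signs
  have hsign : ∀ a : half A e, lam < |a.1 u| → ∃ f ∈ A, lam < f u ∧ rep f = a.1 := by
    intro a ha
    have ham := mem_half.mp a.2
    rcases abs_cases (a.1 u) with ⟨h1, _⟩ | ⟨h1, _⟩
    · refine ⟨a.1, ham.1, by rw [← h1]; exact ha, ?_⟩
      simp only [rep]
      rw [if_pos ham.2]
    · refine ⟨-a.1, hA.symm _ ham.1, by rw [LinearMap.neg_apply, ← h1]; exact ha, ?_⟩
      simp only [rep]
      rw [if_neg, neg_neg]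
      simp only [LinearMap.neg_apply]
      linarith [ham.2]
  obtain ⟨f, hf, hfu, hfa⟩ := hsign a ha
  obtain ⟨g, hg, hgu, hgb⟩ := hsign b hb
  have := hconn f hf g hg hfu hgu
  rw [hχ' f hf, hχ' g hg] at this
  have h2 := Option.some_injective _ this
  have e1 : (⟨rep f, hrepA f hf⟩ : half A e) = a := Subtype.ext hfa
  have e2 : (⟨rep g, hrepA g hg⟩ : half A e) = b := Subtype.ext hgb
  rw [e1, e2] at h2
  exact h2

lemma prop_of_killed (h3 : finrank ℝ V = 3) (s a g : V →ₗ[ℝ] ℝ) (w0 w1 : V) (hs : s ≠ 0)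
    (hs0 : s w0 = 0) (hs1 : s w1 = 0) (ha0 : a w0 = 0) (ha1 : a w1 = 0)
    (hg0 : g w0 ≠ 0) (hg1 : g w1 = 0) (hw1 : w1 ≠ 0) : ∃ μ : ℝ, a = μ • s := by
  obtain ⟨h, hh⟩ : ∃ h : V →ₗ[ℝ] ℝ, h w1 ≠ 0 := by
    by_contra hcon
    push Not at hcon
    exact hw1 (eq_zero_of_forall_dual hcon)
  have hdep : ¬ LinearIndependent ℝ ![s, a, g, h] := by
    intro hli
    have h1 := hli.fintype_card_le_finrank
    have : finrank ℝ (V →ₗ[ℝ] ℝ) = finrank ℝ V := Subspace.dual_finrank_eq
    rw [this, h3] at h1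
    simp at h1
  rw [Fintype.not_linearIndependent_iff] at hdep
  obtain ⟨c, hc, i, hi⟩ := hdep
  simp only [Fin.sum_univ_four, Matrix.cons_val_zero, Matrix.cons_val_one, Matrix.cons_val] at hc
  have hrel : ∀ x : V, c 0 * s x + c 1 * a x + c 2 * g x + c 3 * h x = 0 := by
    intro x
    have := congrArg (fun f : V →ₗ[ℝ] ℝ => f x) hc
    simpa using this
  have h1 := hrel w1
  rw [hs1, ha1, hg1] at h1
  have hc3 : c 3 = 0 := by
    have : c 3 * h w1 = 0 := by linarith
    rcases mul_eq_zero.mp this with h' | h'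
    · exact h'
    · exact absurd h' hh
  have h0 := hrel w0
  rw [hs0, ha0, hc3] at h0
  have hc2 : c 2 = 0 := by
    have : c 2 * g w0 = 0 := by linarith
    rcases mul_eq_zero.mp this with h' | h'
    · exact h'
    · exact absurd h' hg0
  have hc1 : c 1 ≠ 0 := by
    intro hc1
    have hc0 : c 0 = 0 := by
      by_contra hc0
      apply hs
      ext x
      have := hrel x
      rw [hc1, hc2, hc3] at this
      have h' : c 0 * s x = 0 := by linarith
      rcases mul_eq_zero.mp h' with h' | h'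
      · exact absurd h' hc0
      · simpa using h'
    apply hi
    fin_cases i
    · exact hc0
    · exact hc1
    · exact hc2
    · exact hc3
  refine ⟨-(c 0 / c 1), ?_⟩
  ext x
  have := hrel x
  rw [hc2, hc3] at this
  simp only [LinearMap.smul_apply, smul_eq_mul]
  field_simp
  linarith

theorem fewComps (h3 : finrank ℝ V = 3) {A : Finset (V →ₗ[ℝ] ℝ)} (hA : Irr A) {e : V}
    (he : ∀ a ∈ A, a e ≠ 0) : FewComps (cgraph A e) := by
  classical
  intro U
  by_cases hU0 : U = ∅
  · refine ⟨fun _ => 0, by simp, ?_⟩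
    intro κ χ hχ a b _ _ _
    refine vis hA he U χ hχ e 0 le_rfl (by simp [hU0]) a b ?_ ?_
    · exact abs_pos.mpr (he _ (mem_half.mp a.2).1)
    · exact abs_pos.mpr (he _ (mem_half.mp b.2).1)
  have hUpos : 0 < U.card := Finset.card_pos.mpr (Finset.nonempty_iff_ne_empty.mpr hU0)
  obtain ⟨S0, hS0⟩ : ∃ S0 : Finset (V →ₗ[ℝ] ℝ), S0 = U.image (fun a => a.1) := ⟨_, rfl⟩
  obtain ⟨S, hS⟩ : ∃ S : Finset (V →ₗ[ℝ] ℝ), S = S0 ∪ S0.image (fun a => -a) := ⟨_, rfl⟩
  have hScard : S.card ≤ 2 * U.card := by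
    have h1 := Finset.card_union_le S0 (S0.image (fun a => -a))
    have h2 := Finset.card_image_le (s := S0) (f := fun a => -a)
    have h4 : S0.card ≤ U.card := by rw [hS0]; exact Finset.card_image_le
    rw [hS]
    omega
  have hSsymm : ∀ j ∈ S, -j ∈ S := by
    intro j hj
    rw [hS, Finset.mem_union, Finset.mem_image] at hj ⊢
    rcases hj with hj | ⟨k, hk, rfl⟩
    · right; exact ⟨j, hj, rfl⟩
    · left; rw [neg_neg]; exact hk
  have hSA : ∀ j ∈ S, j ∈ A := by
    intro j hj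
    rw [hS, Finset.mem_union, Finset.mem_image] at hj
    rcases hj with hj | ⟨k, hk, rfl⟩
    · rw [hS0] at hj
      obtain ⟨a, _, rfl⟩ := Finset.mem_image.mp hj
      exact (mem_half.mp a.2).1
    · rw [hS0] at hk
      obtain ⟨a, _, rfl⟩ := Finset.mem_image.mp hk
      exact hA.symm _ (mem_half.mp a.2).1
  have hUS : ∀ s ∈ U, s.1 ∈ S := by
    intro s hs
    rw [hS, Finset.mem_union]
    left
    rw [hS0]
    exact Finset.mem_image_of_mem _ hs
  have hnotS : ∀ a : half A e, a ∉ U → a.1 ∉ S := by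
    intro a ha hmem
    rw [hS, Finset.mem_union, Finset.mem_image] at hmem
    rcases hmem with hj | ⟨k, hk, hka⟩
    · rw [hS0] at hj
      obtain ⟨b, hb, hab⟩ := Finset.mem_image.mp hj
      exact ha ((Subtype.ext hab) ▸ hb)
    · rw [hS0] at hk
      obtain ⟨b, _, rfl⟩ := Finset.mem_image.mp hk
      have h1 := (mem_half.mp a.2).2
      have h2 := (mem_half.mp b.2).2
      rw [← hka, LinearMap.neg_apply] at h1
      linarith
  have hx := fun a (ha : a ∈ A) => hA.irr a ha
  choose! xf hxf1 hxf2 using hx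
  -- main case
  have main : ∀ S' : Finset (V →ₗ[ℝ] ℝ), S ⊆ S' → (∀ j ∈ S', -j ∈ S') → S'.card ≤ 2 * U.card + 2 →
      (∀ w, (∀ j ∈ S', j w = 0) → w = 0) →
      (∀ a : half A e, a ∉ U → ∀ j ∈ S', j (xf a.1) ≤ 1) →
      ∃ l : half A e → ℕ, (∀ a, a ∉ U → l a < max 1 (2 * U.card)) ∧
        ∀ (κ : Type u) (χ : half A e → κ),
          (∀ x y, x ∉ U → y ∉ U → (cgraph A e).Adj x y → χ x = χ y) →
          ∀ a b, a ∉ U → b ∉ U → l a = l b → χ a = χ b := by
    intro S' hSS' hsymm' hcard' hspan' hx'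
    obtain ⟨Y, hYc, hYQ, hYa⟩ := exists_Y h3 S' hsymm' hspan'
    have hy : ∀ a : half A e, a ∉ U → ∃ y : Y, 1 < |a.1 y.1| := by
      intro a ha
      obtain ⟨y, hy1, hy2⟩ := hYa a.1 ⟨xf a.1, hx' a ha, hxf1 a.1 (mem_half.mp a.2).1⟩
      exact ⟨⟨y, hy1⟩, hy2⟩
    let l : half A e → ℕ := fun a => if h : a ∉ U then (Y.equivFin (hy a h).choose).val else 0
    refine ⟨l, ?_, ?_⟩
    · intro a ha
      simp only [l, dif_pos ha]
      have := (Y.equivFin (hy a ha).choose).isLt
      have h2 : max 1 (2 * U.card) = 2 * U.card := by omega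
      omega
    · intro κ χ hχ a b ha hb hab
      simp only [l, dif_pos ha, dif_pos hb] at hab
      have h1 := Y.equivFin.injective (Fin.ext hab)
      have ha2 := (hy a ha).choose_spec
      have hb2 := (hy b hb).choose_spec
      rw [← h1] at hb2
      refine vis hA he U χ hχ (hy a ha).choose.1 1 zero_le_one ?_ a b ha2 hb2
      intro s hs
      have h5 := hYQ _ (hy a ha).choose.2 s.1 (hSS' (hUS s hs))
      have h6 := hYQ _ (hy a ha).choose.2 (-s.1) (hSS' (hSsymm _ (hUS s hs)))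
      rw [LinearMap.neg_apply] at h6
      rw [abs_le]
      exact ⟨by linarith, h5⟩
  have hxS : ∀ a : half A e, a ∉ U → ∀ j ∈ S, j (xf a.1) ≤ 1 := by
    intro a ha j hj
    apply hxf2 a.1 (mem_half.mp a.2).1 j (hSA j hj)
    intro h
    exact hnotS a ha (h ▸ hj)
  by_cases hspan : ∀ w, (∀ j ∈ S, j w = 0) → w = 0
  · exact main S (Finset.Subset.refl _) hSsymm (by omega) hspan hxS
  · push Not at hspan
    obtain ⟨w0, hw0, hw00⟩ := hspan
    obtain ⟨g, hg⟩ : ∃ g : V →ₗ[ℝ] ℝ, g w0 ≠ 0 := by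
      by_contra hcon
      push Not at hcon
      exact hw00 (eq_zero_of_forall_dual hcon)
    by_cases hspan2 : ∀ w, (∀ j ∈ S, j w = 0) → g w = 0 → w = 0
    · obtain ⟨ε, hε, hεb⟩ := eps_exists A (fun _ => (1 : ℝ)) (fun a => |g (xf a)|) (by simp)
      refine main (S ∪ {ε • g, -(ε • g)}) Finset.subset_union_left ?_ ?_ ?_ ?_
      · intro j hj
        rw [Finset.mem_union] at hj ⊢
        rcases hj with hj | hj
        · left; exact hSsymm j hj
        · right
          simp only [Finset.mem_insert, Finset.mem_singleton] at hj ⊢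
          rcases hj with rfl | rfl
          · right; rfl
          · left; rw [neg_neg]
      · have h1 := Finset.card_union_le S {ε • g, -(ε • g)}
        have h2 : ({ε • g, -(ε • g)} : Finset (V →ₗ[ℝ] ℝ)).card ≤ 2 := Finset.card_le_two
        omega
      · intro w hw
        apply hspan2 w (fun j hj => hw j (Finset.mem_union_left _ hj))
        have := hw (ε • g) (Finset.mem_union_right _ (by simp))
        rw [LinearMap.smul_apply, smul_eq_mul] at this
        rcases mul_eq_zero.mp this with h | h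
        · exact absurd h hε.ne'
        · exact h
      · intro a ha j hj
        rw [Finset.mem_union] at hj
        rcases hj with hj | hj
        · exact hxS a ha j hj
        · have h1 := hεb a.1 (mem_half.mp a.2).1
          have h2 := le_abs_self (g (xf a.1))
          have h4 := neg_abs_le (g (xf a.1))
          simp only [Finset.mem_insert, Finset.mem_singleton] at hj
          rcases hj with rfl | rfl
          · rw [LinearMap.smul_apply, smul_eq_mul]
            nlinarith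
          · rw [LinearMap.neg_apply, LinearMap.smul_apply, smul_eq_mul]
            nlinarith
    · push Not at hspan2
      obtain ⟨w1, hw1, hgw1, hw10⟩ := hspan2
      obtain ⟨s, hs⟩ := Finset.nonempty_iff_ne_empty.mpr hU0
      have hsS := hUS s hs
      have hsA := hSA _ hsS
      have hclaim : ∀ a : half A e, a ∉ U → a.1 w0 = 0 → a.1 w1 ≠ 0 := by
        intro a ha ha0 ha1
        have haA := (mem_half.mp a.2).1
        obtain ⟨μ, hμ⟩ := prop_of_killed h3 s.1 a.1 g w0 w1 (hA.ne_zero _ hsA) (hw0 _ hsS) (hw1 _ hsS)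
          ha0 ha1 hg hgw1 hw10
        obtain ⟨p, hp1, hp2⟩ := hA.inner a.1 haA
        obtain ⟨q, hq1, hq2⟩ := hA.inner s.1 hsA
        have hne : s.1 ≠ a.1 := fun h => hnotS a ha (h ▸ hsS)
        have hne2 : -s.1 ≠ a.1 := fun h => hnotS a ha (h ▸ hSsymm _ hsS)
        have hne3 : -a.1 ≠ s.1 := fun h => hne2 (by rw [← h, neg_neg])
        have t1 := hp2 s.1 hsA hne
        have t2 := hp2 (-s.1) (hSA _ (hSsymm _ hsS)) hne2
        have t3 := hq2 a.1 haA hne.symm
        have t4 := hq2 (-a.1) (hA.symm _ haA) hne3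
        have e1 : a.1 p = μ * s.1 p := by rw [hμ]; simp
        have e2 : a.1 q = μ * s.1 q := by rw [hμ]; simp
        rw [hp1] at e1
        rw [hq1, mul_one] at e2
        rw [LinearMap.neg_apply] at t2 t4
        rw [e2] at t3 t4
        rcases lt_trichotomy μ 0 with h | h | h
        · nlinarith
        · rw [h] at e1; simp at e1
        · nlinarith
      refine ⟨fun a => if a.1 w0 ≠ 0 then 0 else 1, ?_, ?_⟩
      · intro a _
        have h2 : max 1 (2 * U.card) = 2 * U.card := by omega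
        simp only
        split_ifs <;> omega
      · intro κ χ hχ a b ha hb hab
        simp only at hab
        by_cases h0 : a.1 w0 ≠ 0
        · rw [if_pos h0] at hab
          have h0' : b.1 w0 ≠ 0 := by
            by_contra h
            rw [if_neg (not_not.mpr h)] at hab
            omega
          refine vis hA he U χ hχ w0 0 le_rfl ?_ a b (abs_pos.mpr h0) (abs_pos.mpr h0')
          intro s hs
          rw [hw0 _ (hUS s hs), abs_zero]
        · rw [if_neg h0] at hab
          have h0' : ¬ b.1 w0 ≠ 0 := by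
            intro h
            rw [if_pos h] at hab
            omega
          push Not at h0 h0'
          refine vis hA he U χ hχ w1 0 le_rfl ?_ a b (abs_pos.mpr (hclaim a ha h0))
            (abs_pos.mpr (hclaim b hb h0'))
          intro s hs
          rw [hw1 _ (hUS s hs), abs_zero]

end FacetRep
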