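import Pool.Agent.V11151.FR.Gad

set_option autoImplicit false
set_option linter.unusedSectionVars false
set_option linter.unusedSimpArgs false

namespace FacetRep

open Module

variable {d : ℕ}

lemma L_eq_of {t : ℝ} (hne : (ratios d).Nonempty) (hub : ∀ r ∈ ratios d, r ≤ t)
    (hlb : ∀ u, (∀ r ∈ ratios d, r ≤ u) → t ≤ u) : L d = t := by
  have h : IsLUB (ratios d) t := ⟨fun r hr => hub r hr, fun u hu => hlb u (fun r hr => hu hr)⟩
  exact h.csSup_eq hne

lemma ratio_le_one (hd : 0 < d) : ∀ r ∈ ratios d, r ≤ 1 := by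
  rintro r ⟨P, hP, rfl⟩
  have h := upper_one hd hP
  have h' : (repNumber P : ℝ) ≤ (numFacets P : ℝ) := by exact_mod_cast h
  exact div_le_one_of_le₀ h' (Nat.cast_nonneg _)

lemma ratio_lower (hd : 0 < d) {P : Set (E d)} (hP : IsCSPolytope P) {a c : ℕ} (ha : 0 < a)
    (h1 : a ≤ repNumber P) (h2 : numFacets P ≤ c + a) {u : ℝ} (hu : ∀ r ∈ ratios d, r ≤ u) :
    0 < u ∧ (a : ℝ) ≤ u * (c + a) := by
  have h3 := upper_one hd hP
  have h4 := hu _ ⟨P, hP, rfl⟩
  have hnpos : (0 : ℝ) < (numFacets P : ℝ) := by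
    have : 0 < numFacets P := by omega
    exact_mod_cast this
  rw [div_le_iff₀ hnpos] at h4
  have h5 : (a : ℝ) ≤ (repNumber P : ℝ) := by exact_mod_cast h1
  have h6 : (numFacets P : ℝ) ≤ (c : ℝ) + a := by exact_mod_cast h2
  have ha' : (0 : ℝ) < a := by exact_mod_cast ha
  have hu0 : 0 < u := by
    by_contra hcon
    push Not at hcon
    nlinarith
  exact ⟨hu0, by nlinarith⟩

/-- examples in dimension 3 -/
theorem examples_three (M : ℕ) : ∃ P : Set (E 3), IsCSPolytope P ∧
    8 * M + 4 ≤ repNumber P ∧ numFacets P ≤ (4 * M + 6) + (8 * M + 4) := by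
  have h01 : (0 : Fin 3) ≠ 1 := by decide
  have h02 : (0 : Fin 3) ≠ 2 := by decide
  have h12 : (1 : Fin 3) ≠ 2 := by decide
  obtain ⟨P, hP, h1, h2⟩ := product_bound (d := 3) (by norm_num) (polyGad 0 1 h01 M) (segGad 2)
    Empty (fun k => k.elim) id (fun k => k.elim)
    (by
      rintro ⟨σ, i⟩ w
      simp [polyGad, segGad, PiLp.single_apply, h02, h12])
    (by
      rintro ⟨σ, i⟩ w
      simp [polyGad, segGad, PiLp.single_apply, h02, h12])
    (by
      rintro i ⟨τ, j⟩
      simp [polyGad, segGad, PiLp.single_apply, h02.symm, h12.symm])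
    (by
      rintro i ⟨τ, j⟩
      simp [polyGad, segGad, PiLp.single_apply, h02.symm, h12.symm])
    (fun k => k.elim) (fun k => k.elim)
    (by
      intro x hG hH _
      have g1 := hG (true, ⟨M, by omega⟩)
      have g2 := hG (true, ⟨M + 1, by omega⟩)
      have g3 := hH true
      simp only [polyGad, segGad, LinearMap.smul_apply, LinearMap.add_apply, coord_apply,
        smul_eq_mul, sg, if_true, one_mul] at g1 g2 g3
      push_cast at g2
      have e0 : x 0 = 0 := by linarith
      have e1 : x 1 = 0 := by rw [e0] at g1; linarith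
      ext i
      fin_cases i
      · exact e0
      · exact e1
      · exact g3)
  refine ⟨P, hP, ?_, ?_⟩
  · have : Fintype.card (polyGad (0 : Fin 3) 1 h01 M).β * Fintype.card (segGad (2 : Fin 3)).β
        = 8 * M + 4 := by
      change Fintype.card (Bool × Fin (2 * M + 1)) * Fintype.card Bool = _
      simp only [Fintype.card_prod, Fintype.card_bool, Fintype.card_fin]
      ring
    rw [this] at h1
    exact h1
  · have e1 : Fintype.card (polyGad (0 : Fin 3) 1 h01 M).β * Fintype.card (segGad (2 : Fin 3)).β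
        = 8 * M + 4 := by
      change Fintype.card (Bool × Fin (2 * M + 1)) * Fintype.card Bool = _
      simp only [Fintype.card_prod, Fintype.card_bool, Fintype.card_fin]
      ring
    have e2 : Fintype.card (polyGad (0 : Fin 3) 1 h01 M).α = 4 * M + 4 := by
      change Fintype.card (Bool × Fin (2 * M + 2)) = _
      simp only [Fintype.card_prod, Fintype.card_bool, Fintype.card_fin]
      ring
    have e3 : Fintype.card (segGad (2 : Fin 3)).α = 2 := by
      change Fintype.card Bool = _
      simp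
    rw [e1, e2, e3] at h2
    simp only [Fintype.card_empty] at h2
    omega

/-- examples in dimension at least 4 -/
theorem examples_four (hd : 4 ≤ d) (M : ℕ) : ∃ P : Set (E d), IsCSPolytope P ∧
    4 * (2 * M + 1) ^ 2 ≤ repNumber P ∧
      numFacets P ≤ (8 * M + 8 + 2 * d) + 4 * (2 * M + 1) ^ 2 := by
  classical
  set i0 : Fin d := ⟨0, by omega⟩ with hi0
  set i1 : Fin d := ⟨1, by omega⟩ with hi1
  set i2 : Fin d := ⟨2, by omega⟩ with hi2
  set i3 : Fin d := ⟨3, by omega⟩ with hi3
  have h01 : i0 ≠ i1 := by simp [hi0, hi1]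
  have h02 : i0 ≠ i2 := by simp [hi0, hi2]
  have h03 : i0 ≠ i3 := by simp [hi0, hi3]
  have h12 : i1 ≠ i2 := by simp [hi1, hi2]
  have h13 : i1 ≠ i3 := by simp [hi1, hi3]
  have h23 : i2 ≠ i3 := by simp [hi2, hi3]
  have hk : ∀ k : {i : Fin d // 4 ≤ i.val}, k.1 ≠ i0 ∧ k.1 ≠ i1 ∧ k.1 ≠ i2 ∧ k.1 ≠ i3 := by
    rintro ⟨k, hk⟩
    refine ⟨?_, ?_, ?_, ?_⟩ <;> (intro h; have h' : k.val = _ := congrArg Fin.val h; simp [hi0, hi1, hi2, hi3] at h'; omega)
  obtain ⟨P, hP, h1, h2⟩ := product_bound (d := d) (by omega) (polyGad i0 i1 h01 M)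
    (polyGad i2 i3 h23 M) ({i : Fin d // 4 ≤ i.val} × Bool) (fun k => sg k.2 • coord k.1.1)
    (fun k => (k.1, !k.2))
    (by
      rintro ⟨k, σ⟩
      apply LinearMap.ext
      intro x
      simp only [sg_not, LinearMap.smul_apply, LinearMap.neg_apply, smul_eq_mul]
      ring)
    (by
      rintro ⟨σ, i⟩ ⟨τ, j⟩
      simp [polyGad, PiLp.single_apply, h02, h12, h03, h13])
    (by
      rintro ⟨σ, i⟩ ⟨τ, j⟩
      simp [polyGad, PiLp.single_apply, h02, h12, h03, h13])
    (by
      rintro ⟨σ, i⟩ ⟨τ, j⟩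
      simp [polyGad, PiLp.single_apply, h02.symm, h12.symm, h03.symm, h13.symm])
    (by
      rintro ⟨σ, i⟩ ⟨τ, j⟩
      simp [polyGad, PiLp.single_apply, h02.symm, h12.symm, h03.symm, h13.symm])
    (by
      rintro ⟨k, σ⟩ ⟨τ, j⟩
      obtain ⟨q0, q1, q2, q3⟩ := hk k
      simp [polyGad, PiLp.single_apply, q0, q1])
    (by
      rintro ⟨k, σ⟩ ⟨τ, j⟩
      obtain ⟨q0, q1, q2, q3⟩ := hk k
      simp [polyGad, PiLp.single_apply, q2, q3])
    (by
      intro x hG hH hγ
      have g1 := hG (true, ⟨M, by omega⟩)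
      have g2 := hG (true, ⟨M + 1, by omega⟩)
      have g3 := hH (true, ⟨M, by omega⟩)
      have g4 := hH (true, ⟨M + 1, by omega⟩)
      simp only [polyGad, LinearMap.smul_apply, LinearMap.add_apply, coord_apply,
        smul_eq_mul, sg, if_true, one_mul] at g1 g2 g3 g4
      push_cast at g2 g4
      have e0 : x i0 = 0 := by linarith
      have e1 : x i1 = 0 := by rw [e0] at g1; linarith
      have e2 : x i2 = 0 := by linarith
      have e3 : x i3 = 0 := by rw [e2] at g3; linarith
      ext i
      by_cases hi : 4 ≤ i.val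
      · have := hγ (⟨i, hi⟩, true)
        simpa [sg] using this
      · have : i = i0 ∨ i = i1 ∨ i = i2 ∨ i = i3 := by
          simp only [hi0, hi1, hi2, hi3, Fin.ext_iff]
          omega
        rcases this with h | h | h | h <;> rw [h]
        · exact e0
        · exact e1
        · exact e2
        · exact e3)
  have e1 : Fintype.card (polyGad i0 i1 h01 M).β * Fintype.card (polyGad i2 i3 h23 M).β
      = 4 * (2 * M + 1) ^ 2 := by
    change Fintype.card (Bool × Fin (2 * M + 1)) * Fintype.card (Bool × Fin (2 * M + 1)) = _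
    simp only [Fintype.card_prod, Fintype.card_bool, Fintype.card_fin]
    ring
  have e2 : Fintype.card (polyGad i0 i1 h01 M).α = 4 * M + 4 := by
    change Fintype.card (Bool × Fin (2 * M + 2)) = _
    simp only [Fintype.card_prod, Fintype.card_bool, Fintype.card_fin]
    ring
  have e3 : Fintype.card (polyGad i2 i3 h23 M).α = 4 * M + 4 := by
    change Fintype.card (Bool × Fin (2 * M + 2)) = _
    simp only [Fintype.card_prod, Fintype.card_bool, Fintype.card_fin]
    ring
  have e4 : Fintype.card ({i : Fin d // 4 ≤ i.val} × Bool) ≤ 2 * d := by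
    rw [Fintype.card_prod, Fintype.card_bool]
    have := Fintype.card_subtype_le (fun i : Fin d => 4 ≤ i.val)
    rw [Fintype.card_fin] at this
    omega
  rw [e1] at h1 h2
  rw [e2, e3] at h2
  refine ⟨P, hP, h1, ?_⟩
  omega

theorem L_three : L 3 = 2 / 3 := by
  apply L_eq_of
  · obtain ⟨P, hP, _⟩ := examples_three 0
    exact ⟨_, P, hP, rfl⟩
  · rintro r ⟨P, hP, rfl⟩
    have h := upper_three hP
    have h' : 3 * (repNumber P : ℝ) ≤ 2 * (numFacets P : ℝ) := by exact_mod_cast h
    rcases Nat.eq_zero_or_pos (numFacets P) with h0 | hpos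
    · rw [h0]; simp; norm_num
    · have hpos' : (0 : ℝ) < (numFacets P : ℝ) := by exact_mod_cast hpos
      rw [div_le_div_iff₀ hpos' (by norm_num)]
      linarith
  · intro u hu
    by_contra hcon
    push Not at hcon
    obtain ⟨M, hM⟩ := exists_nat_gt (10 / (8 - 12 * u))
    obtain ⟨P, hP, h1, h2⟩ := examples_three M
    obtain ⟨hu0, h3⟩ := ratio_lower (by norm_num) hP (by omega) h1 h2 hu
    rw [div_lt_iff₀ (by linarith)] at hM
    push_cast at h3
    nlinarith

theorem L_four (hd : 4 ≤ d) : L d = 1 := by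
  apply L_eq_of
  · obtain ⟨P, hP, _⟩ := examples_four hd 0
    exact ⟨_, P, hP, rfl⟩
  · exact ratio_le_one (by omega)
  · intro u hu
    by_contra hcon
    push Not at hcon
    obtain ⟨M, hM⟩ := exists_nat_gt ((8 + 2 * (d : ℝ)) / (4 * (1 - u)))
    obtain ⟨P, hP, h1, h2⟩ := examples_four hd M
    obtain ⟨hu0, h3⟩ := ratio_lower (by omega) hP (by positivity) h1 h2 hu
    rw [div_lt_iff₀ (by linarith)] at hM
    push_cast at h3
    have hd0 : (0 : ℝ) ≤ d := Nat.cast_nonneg d
    have hM0 : (0 : ℝ) ≤ M := Nat.cast_nonneg M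
    set N : ℝ := 2 * (M : ℝ) + 1 with hN
    have hN1 : 1 ≤ N := by rw [hN]; linarith
    have h4 : 4 * (1 - u) * N ^ 2 ≤ 4 * N + 4 + 2 * d := by
      have : u * (8 * M + 8 + 2 * d) ≤ 8 * M + 8 + 2 * d := by
        have : 0 ≤ 8 * (M : ℝ) + 8 + 2 * d := by positivity
        nlinarith
      rw [hN] at h3 ⊢
      nlinarith
    have h5 : 4 * N + 4 + 2 * d ≤ (8 + 2 * d) * N := by nlinarith
    have h6 : 4 * (1 - u) * N ≤ 8 + 2 * d := by
      by_contra hc
      push Not at hc
      nlinarith
    nlinarith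

/-- the segment -/
theorem L_one : L 1 = 1 := by
  classical
  let A : Finset (E 1 →ₗ[ℝ] ℝ) := {coord 0, -coord 0}
  have hsymm : ∀ a ∈ A, -a ∈ A := by
    intro a ha
    simp only [A, Finset.mem_insert, Finset.mem_singleton] at ha ⊢
    rcases ha with rfl | rfl
    · right; rfl
    · left; rw [neg_neg]
  have hspan : ∀ w : E 1, (∀ a ∈ A, a w = 0) → w = 0 := by
    intro w hw
    have := hw (coord 0) (by simp [A])
    ext i
    fin_cases i
    exact this
  have hP := isCSPolytope_Qset hsymm hspan
  have hne : (coord 0 : E 1 →ₗ[ℝ] ℝ) ≠ -coord 0 := by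
    intro h
    have := congrArg (fun f : E 1 →ₗ[ℝ] ℝ => f (EuclideanSpace.single 0 1)) h
    simp [PiLp.single_apply] at this
    linarith
  have hlow : A.card ≤ repNumber (Qset A) := by
    apply lower_lemma (by norm_num) A A (Finset.Subset.refl _)
    · intro j hj
      simp only [A, Finset.mem_insert, Finset.mem_singleton] at hj
      rcases hj with rfl | rfl
      · refine ⟨EuclideanSpace.single 0 1, by simp [PiLp.single_apply], ?_⟩
        intro b hb hne
        simp only [A, Finset.mem_insert, Finset.mem_singleton] at hb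
        rcases hb with rfl | rfl
        · exact absurd rfl hne
        · simp [PiLp.single_apply]
      · refine ⟨EuclideanSpace.single 0 (-1), by simp [PiLp.single_apply], ?_⟩
        intro b hb hne
        simp only [A, Finset.mem_insert, Finset.mem_singleton] at hb
        rcases hb with rfl | rfl
        · simp [PiLp.single_apply]
        · exact absurd rfl hne
    · intro j hj j' hj' hjj x _ h1 h2
      simp only [A, Finset.mem_insert, Finset.mem_singleton] at hj hj'
      rcases hj with rfl | rfl <;> rcases hj' with rfl | rfl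
      · exact hjj rfl
      · rw [LinearMap.neg_apply, h1] at h2; norm_num at h2
      · rw [LinearMap.neg_apply, h2] at h1; norm_num at h1
      · exact hjj rfl
  have hnum := numFacets_le A
  have hA : A.card = 2 := Finset.card_pair hne
  rw [hA] at hlow hnum
  have hup := upper_one (by norm_num) hP
  have e1 : repNumber (Qset A) = 2 := by omega
  have e2 : numFacets (Qset A) = 2 := by omega
  have hmem : (1 : ℝ) ∈ ratios 1 := by
    refine ⟨Qset A, hP, ?_⟩
    rw [e1, e2]; norm_num
  apply L_eq_of ⟨1, hmem⟩ (ratio_le_one (by norm_num))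
  intro u hu
  exact hu 1 hmem

end FacetRep
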