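import Pool.Agent.V11151.FR.Lower

set_option autoImplicit false
set_option linter.unusedSectionVars false

namespace FacetRep

open Module

variable {d : ℕ}

/-- coordinate functional -/
def coord (i : Fin d) : E d →ₗ[ℝ] ℝ where
  toFun x := x i
  map_add' _ _ := rfl
  map_smul' _ _ := rfl

@[simp] lemma coord_apply (i : Fin d) (x : E d) : coord i x = x i := rfl

/-- sign -/
def sg (b : Bool) : ℝ := if b then 1 else -1

lemma sg_not (b : Bool) : sg (!b) = - sg b := by cases b <;> simp [sg]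

lemma sg_cases (b : Bool) : sg b = 1 ∨ sg b = -1 := by cases b <;> simp [sg]

lemma int_prod (x : ℤ) : 0 ≤ x * (x + 1) := by
  rcases le_or_gt 0 x with h | h
  · positivity
  · nlinarith

lemma real_prod (i j : ℕ) : (0 : ℝ) ≤ ((j : ℝ) - i) * ((j : ℝ) - i + 1) := by
  have := int_prod ((j : ℤ) - i)
  exact_mod_cast this

lemma real_sq (i j : ℕ) (h : i ≠ j) : (1 : ℝ) ≤ ((j : ℝ) - i) ^ 2 := by
  have h1 : (1 : ℤ) ≤ ((j : ℤ) - i) ^ 2 := by
    have h2 : ((j : ℤ) - i) ≠ 0 := by omega
    have h3 : 0 < ((j : ℤ) - i) ^ 2 := by positivity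
    omega
  exact_mod_cast h1

/-- the truncated polygon factor in coordinates `i0`, `i1` -/
noncomputable def polyGad (i0 i1 : Fin d) (hi : i0 ≠ i1) (M : ℕ) : Gadget d where
  α := Bool × Fin (2 * M + 2)
  β := Bool × Fin (2 * M + 1)
  e := fun a => sg a.1 • (coord i1 + (2 * (a.2.val : ℝ) - 2 * M - 1) • coord i0)
  r := fun a => ((M : ℝ) + 1) ^ 2 + ((2 * (a.2.val : ℝ) - 2 * M - 1) ^ 2 - 1) / 4
  q := fun v => sg v.1 • (coord i1 + (2 * ((v.2.val : ℝ) - M)) • coord i0)
  C := fun v => ((M : ℝ) + 1) ^ 2 + ((v.2.val : ℝ) - M) ^ 2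
  p := fun v => sg v.1 • (EuclideanSpace.single i0 ((v.2.val : ℝ) - M) +
    EuclideanSpace.single i1 (((M : ℝ) + 1) ^ 2 - ((v.2.val : ℝ) - M) ^ 2))
  na := fun a => (!a.1, a.2)
  nb := fun v => (!v.1, v.2)
  r_pos := by
    rintro ⟨σ, i⟩
    have hM : (0 : ℝ) ≤ M := Nat.cast_nonneg M
    simp only
    nlinarith [sq_nonneg (2 * (i.val : ℝ) - 2 * M - 1)]
  e_na := by
    rintro ⟨σ, i⟩
    apply LinearMap.ext
    intro x
    simp only [sg_not, LinearMap.smul_apply, LinearMap.neg_apply, LinearMap.add_apply, smul_eq_mul]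
    ring
  r_na := by intro a; rfl
  q_nb := by
    rintro ⟨σ, i⟩
    apply LinearMap.ext
    intro x
    simp only [sg_not, LinearMap.smul_apply, LinearMap.neg_apply, LinearMap.add_apply, smul_eq_mul]
    ring
  C_nb := by intro a; rfl
  e_p := by
    rintro ⟨σ, i⟩ ⟨τ, j⟩
    have hM : (0 : ℝ) ≤ M := Nat.cast_nonneg M
    have hj0 : (0 : ℝ) ≤ (j.val : ℝ) := Nat.cast_nonneg _
    have hj1 : (j.val : ℝ) ≤ 2 * M := by
      have : j.val ≤ 2 * M := by omega
      exact_mod_cast this
    have hp := real_prod i.val j.val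
    simp only [LinearMap.smul_apply, LinearMap.add_apply, coord_apply, PiLp.smul_apply,
      PiLp.add_apply, PiLp.single_apply, smul_eq_mul, hi, Ne.symm hi, if_true, if_false]
    rcases sg_cases σ with h | h <;> rcases sg_cases τ with h' | h' <;> rw [h, h']
    · nlinarith
    · nlinarith [sq_nonneg (((j.val : ℝ) - M) + (2 * (i.val : ℝ) - 2 * M - 1) / 2)]
    · nlinarith [sq_nonneg (((j.val : ℝ) - M) + (2 * (i.val : ℝ) - 2 * M - 1) / 2)]
    · nlinarith
  C_ge := by
    rintro ⟨σ, i⟩
    have hM : (0 : ℝ) ≤ M := Nat.cast_nonneg M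
    simp only
    nlinarith [sq_nonneg ((i.val : ℝ) - M)]
  q_p := by
    rintro ⟨τ, j⟩
    simp only [LinearMap.smul_apply, LinearMap.add_apply, coord_apply, PiLp.smul_apply,
      PiLp.add_apply, PiLp.single_apply, smul_eq_mul, hi, Ne.symm hi, if_true, if_false]
    rcases sg_cases τ with h' | h' <;> rw [h'] <;> ring
  q_p_ne := by
    rintro ⟨τ, j⟩ ⟨σ, i⟩ hne
    have hM : (0 : ℝ) ≤ M := Nat.cast_nonneg M
    have hj0 : (0 : ℝ) ≤ (j.val : ℝ) := Nat.cast_nonneg _
    have hj1 : (j.val : ℝ) ≤ 2 * M := by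
      have : j.val ≤ 2 * M := by omega
      exact_mod_cast this
    simp only [LinearMap.smul_apply, LinearMap.add_apply, coord_apply, PiLp.smul_apply,
      PiLp.add_apply, PiLp.single_apply, smul_eq_mul, hi, Ne.symm hi, if_true, if_false]
    by_cases hst : σ = τ
    · subst hst
      have hij : i.val ≠ j.val := by
        intro h
        exact hne (by rw [Fin.ext h])
      have hsq := real_sq i.val j.val hij
      rcases sg_cases σ with h | h <;> rw [h]
      · nlinarith
      · nlinarith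
    · have hsg : sg σ * sg τ = -1 := by
        cases σ <;> cases τ <;> simp_all [sg]
      have key : ∀ x : ℝ, sg σ * (sg τ * x) = -x := by
        intro x
        rw [← mul_assoc, hsg]; ring
      have e1 : sg σ * (sg τ * (0 + (((M : ℝ) + 1) ^ 2 - ((j.val : ℝ) - M) ^ 2)) +
          2 * ((i.val : ℝ) - M) * (sg τ * (((j.val : ℝ) - M) + 0))) =
          -((((M : ℝ) + 1) ^ 2 - ((j.val : ℝ) - M) ^ 2) + 2 * ((i.val : ℝ) - M) * ((j.val : ℝ) - M)) := by
        have := key ((((M : ℝ) + 1) ^ 2 - ((j.val : ℝ) - M) ^ 2) + 2 * ((i.val : ℝ) - M) * ((j.val : ℝ) - M))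
        rw [← this]; ring
      rw [e1]
      nlinarith [sq_nonneg (((j.val : ℝ) - M) + ((i.val : ℝ) - M))]
  q_le := by
    rintro x ⟨σ, j⟩ hx
    have h1 := hx (σ, ⟨j.val, by omega⟩)
    have h2 := hx (σ, ⟨j.val + 1, by omega⟩)
    simp only [LinearMap.smul_apply, LinearMap.add_apply, coord_apply, smul_eq_mul] at h1 h2 ⊢
    push_cast at h1 h2
    nlinarith
  q_sep := by
    rintro x ⟨σ, i⟩ ⟨τ, j⟩ hne hx h1 h2
    have hM : (0 : ℝ) ≤ M := Nat.cast_nonneg M
    have hj0 : (0 : ℝ) ≤ (j.val : ℝ) := Nat.cast_nonneg _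
    have hj1 : (j.val : ℝ) ≤ 2 * M := by
      have : j.val ≤ 2 * M := by omega
      exact_mod_cast this
    have hi0 : (0 : ℝ) ≤ (i.val : ℝ) := Nat.cast_nonneg _
    have hi1 : (i.val : ℝ) ≤ 2 * M := by
      have : i.val ≤ 2 * M := by omega
      exact_mod_cast this
    simp only [LinearMap.smul_apply, LinearMap.add_apply, coord_apply, smul_eq_mul] at hx h1 h2
    -- same sign separation
    have same : ∀ (σ : Bool) (i j : ℕ), i < j → j ≤ 2 * M →
        ((M : ℝ) + 1) ^ 2 + ((i : ℝ) - M) ^ 2 - 1/4 ≤ sg σ * (x i1 + 2 * ((i : ℝ) - M) * x i0) →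
        ((M : ℝ) + 1) ^ 2 + ((j : ℝ) - M) ^ 2 - 1/4 ≤ sg σ * (x i1 + 2 * ((j : ℝ) - M) * x i0) → False := by
      intro σ i j hij hj h1 h2
      have h3 := hx (σ, ⟨i + 1, by omega⟩)
      simp only at h3
      push_cast at h3
      obtain ⟨D, hD⟩ : ∃ D : ℕ, j = i + 1 + D := ⟨j - i - 1, by omega⟩
      subst hD
      push_cast at h2
      have hDn : (0 : ℝ) ≤ D := Nat.cast_nonneg D
      set a : ℝ := sg σ * x i1 with ha
      set b : ℝ := sg σ * x i0 with hb
      have h1' : ((M : ℝ) + 1) ^ 2 + ((i : ℝ) - M) ^ 2 - 1/4 ≤ a + 2 * ((i : ℝ) - M) * b := by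
        rw [ha, hb]; linarith
      have h2' : ((M : ℝ) + 1) ^ 2 + ((i : ℝ) + 1 + D - M) ^ 2 - 1/4 ≤ a + 2 * ((i : ℝ) + 1 + D - M) * b := by
        rw [ha, hb]; linarith
      have h3' : a + (2 * ((i : ℝ) + 1) - 2 * M - 1) * b ≤ ((M : ℝ) + 1) ^ 2 + ((2 * ((i : ℝ) + 1) - 2 * M - 1) ^ 2 - 1) / 4 := by
        rw [ha, hb]; linarith
      have h4 : (2 * (D : ℝ) + 1) * (((M : ℝ) + 1) ^ 2 + ((i : ℝ) - M) ^ 2 - 1/4) ≤
          (2 * (D : ℝ) + 1) * (a + 2 * ((i : ℝ) - M) * b) :=
        mul_le_mul_of_nonneg_left h1' (by linarith)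
      have h5 : (2 * (D : ℝ) + 2) * (a + (2 * ((i : ℝ) + 1) - 2 * M - 1) * b) ≤
          (2 * (D : ℝ) + 2) * (((M : ℝ) + 1) ^ 2 + ((2 * ((i : ℝ) + 1) - 2 * M - 1) ^ 2 - 1) / 4) :=
        mul_le_mul_of_nonneg_left h3' (by linarith)
      nlinarith
    by_cases hst : σ = τ
    · subst hst
      have hij : i.val ≠ j.val := by
        intro h
        exact hne (by rw [Fin.ext h])
      rcases lt_or_gt_of_ne hij with h | h
      · exact same σ i.val j.val h (by omega) h1 h2
      · exact same σ j.val i.val h (by omega) h2 h1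
    · -- opposite signs
      have hsg : sg τ = - sg σ := by
        cases σ <;> cases τ <;> simp_all [sg]
      have g1 := hx (true, ⟨2 * M + 1, by omega⟩)
      have g2 := hx (false, ⟨2 * M + 1, by omega⟩)
      have g3 := hx (true, ⟨0, by omega⟩)
      have g4 := hx (false, ⟨0, by omega⟩)
      simp only [sg] at g1 g2 g3 g4
      push_cast at g1 g2 g3 g4
      try simp only [if_true, Bool.false_eq_true, if_false] at g1 g2 g3 g4
      have b1 : x i0 ≤ M + 1 := by
        by_contra hcon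
        push Not at hcon
        nlinarith
      have b2 : -x i0 ≤ M + 1 := by
        by_contra hcon
        push Not at hcon
        nlinarith
      set b : ℝ := sg σ * x i0 with hb
      have hb1 : b ≤ M + 1 := by
        rcases sg_cases σ with h | h
        · rw [hb, h]; linarith
        · rw [hb, h]; linarith
      have hb2 : -b ≤ M + 1 := by
        rcases sg_cases σ with h | h
        · rw [hb, h]; linarith
        · rw [hb, h]; linarith
      rw [hsg] at h2
      have h3 : 2 * ((M : ℝ) + 1) ^ 2 + ((i.val : ℝ) - M) ^ 2 + ((j.val : ℝ) - M) ^ 2 - 1/2 ≤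
          2 * (((i.val : ℝ) - M) - ((j.val : ℝ) - M)) * b := by
        rw [hb]; linarith
      set k : ℝ := (i.val : ℝ) - M with hk
      set k' : ℝ := (j.val : ℝ) - M with hk'
      have k1 : k ≤ M := by rw [hk]; linarith
      have k2 : -k ≤ M := by rw [hk]; linarith
      have k3 : k' ≤ M := by rw [hk']; linarith
      have k4 : -k' ≤ M := by rw [hk']; linarith
      rcases le_total 0 (k - k') with h | h
      · have h5 : (k - k') * b ≤ (k - k') * (M + 1) := mul_le_mul_of_nonneg_left hb1 h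
        nlinarith [sq_nonneg (M + 1 - k - 1), sq_nonneg (M + 1 + k' - 1)]
      · have h5 : (k' - k) * (-b) ≤ (k' - k) * (M + 1) := mul_le_mul_of_nonneg_left hb2 (by linarith)
        nlinarith [sq_nonneg (M + 1 + k - 1), sq_nonneg (M + 1 - k' - 1)]

/-- the segment factor in coordinate `i2` -/
noncomputable def segGad (i2 : Fin d) : Gadget d where
  α := Bool
  β := Bool
  e := fun a => sg a • coord i2
  r := fun _ => 1
  q := fun v => sg v • coord i2
  C := fun _ => 1
  p := fun v => sg v • EuclideanSpace.single i2 1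
  na := fun a => !a
  nb := fun v => !v
  r_pos := by intro _; norm_num
  e_na := by
    intro a
    apply LinearMap.ext
    intro x
    simp only [sg_not, LinearMap.smul_apply, LinearMap.neg_apply, smul_eq_mul]
    ring
  r_na := by intro a; rfl
  q_nb := by
    intro a
    apply LinearMap.ext
    intro x
    simp only [sg_not, LinearMap.smul_apply, LinearMap.neg_apply, smul_eq_mul]
    ring
  C_nb := by intro a; rfl
  e_p := by
    intro σ τ
    simp only [LinearMap.smul_apply, coord_apply, PiLp.smul_apply, PiLp.single_apply,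
      smul_eq_mul, if_true]
    rcases sg_cases σ with h | h <;> rcases sg_cases τ with h' | h' <;> rw [h, h'] <;> norm_num
  C_ge := by intro _; exact le_rfl
  q_p := by
    intro τ
    simp only [LinearMap.smul_apply, coord_apply, PiLp.smul_apply, PiLp.single_apply,
      smul_eq_mul, if_true]
    rcases sg_cases τ with h' | h' <;> rw [h'] <;> norm_num
  q_p_ne := by
    intro τ σ hne
    simp only [LinearMap.smul_apply, coord_apply, PiLp.smul_apply, PiLp.single_apply,
      smul_eq_mul, if_true]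
    cases τ <;> cases σ <;> simp_all [sg] <;> norm_num
  q_le := by
    intro x v hx
    exact hx v
  q_sep := by
    intro x σ τ hne hx h1 h2
    simp only [LinearMap.smul_apply, coord_apply, smul_eq_mul] at h1 h2
    cases τ <;> cases σ <;> simp_all [sg] <;> linarith

end FacetRep
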