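import Mathlib

set_option autoImplicit false
set_option linter.unusedSectionVars false

namespace FacetRep

open Module

section algebra

variable {V : Type*} [AddCommGroup V] [Module ℝ V]

lemma step (A : Finset (V →ₗ[ℝ] ℝ)) (u p : V) (a : V →ₗ[ℝ] ℝ)
    (hp : ∀ b ∈ A, b p ≤ 1) (hap : a p = 1) (ht : 0 < a u) (hex : ∃ b ∈ A, a u < b u) :
    ∃ b ∈ A, a u < b u ∧ ∃ z, (∀ b' ∈ A, b' z ≤ 1) ∧ a z = 1 ∧ b z = 1 := by
  classical
  set y : V := (a u)⁻¹ • u with hy
  have hay : a y = 1 := by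
    rw [hy, map_smul, smul_eq_mul, inv_mul_cancel₀ ht.ne']
  have hby : ∀ b : V →ₗ[ℝ] ℝ, b y = b u / a u := by
    intro b
    rw [hy, map_smul, smul_eq_mul, div_eq_inv_mul]
  set D := A.filter (fun b => a u < b u) with hD
  have hDne : D.Nonempty := by
    obtain ⟨b, hb, hb'⟩ := hex
    exact ⟨b, by simp [hD, hb, hb']⟩
  have hDy : ∀ b ∈ D, 1 < b y := by
    intro b hb
    rw [hby, lt_div_iff₀ ht, one_mul]
    exact (Finset.mem_filter.mp hb).2
  obtain ⟨b, hb, hbmin⟩ := Finset.exists_min_image D (fun b => (1 - b p) / (b y - b p)) hDne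
  have hbA := (Finset.mem_filter.mp hb).1
  have hb2 := (Finset.mem_filter.mp hb).2
  set τ := (1 - b p) / (b y - b p) with hτ
  have hden : ∀ b ∈ D, 0 < b y - b p := by
    intro b hb
    have h1 := hDy b hb
    have h2 := hp b (Finset.mem_filter.mp hb).1
    linarith
  have hτ0 : 0 ≤ τ := by
    apply div_nonneg
    · linarith [hp b hbA]
    · exact (hden b hb).le
  have hτ1 : τ ≤ 1 := by
    rw [hτ, div_le_one (hden b hb)]
    linarith [hDy b hb]
  have hval : ∀ b' : V →ₗ[ℝ] ℝ, b' (p + τ • (y - p)) = b' p + τ * (b' y - b' p) := by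
    intro b'
    simp [map_add, map_smul, map_sub]
  refine ⟨b, hbA, hb2, p + τ • (y - p), ?_, ?_, ?_⟩
  · intro b' hb'
    rw [hval]
    by_cases hb'D : b' ∈ D
    · have h1 := hbmin b' hb'D
      have h2 := hden b' hb'D
      have h3 : τ * (b' y - b' p) ≤ (1 - b' p) / (b' y - b' p) * (b' y - b' p) :=
        mul_le_mul_of_nonneg_right h1 h2.le
      rw [div_mul_cancel₀ _ h2.ne'] at h3
      linarith
    · have h1 : b' y ≤ 1 := by
        rw [hby, div_le_one ht]
        by_contra h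
        push Not at h
        exact hb'D (by simp [hD, hb', h])
      have h2 := hp b' hb'
      nlinarith
  · rw [hval, hay, hap]; ring
  · rw [hval, hτ, div_mul_cancel₀ _ (hden b hb).ne']
    ring

lemma conn (A : Finset (V →ₗ[ℝ] ℝ))
    (hz : ∀ a ∈ A, ∃ p, (∀ b ∈ A, b p ≤ 1) ∧ a p = 1) (u : V) (lam : ℝ) (hlam : 0 ≤ lam)
    {κ : Type*} (χ : (V →ₗ[ℝ] ℝ) → κ)
    (hχ : ∀ f ∈ A, ∀ g ∈ A, lam < f u → lam < g u →
      (∃ z, (∀ b ∈ A, b z ≤ 1) ∧ f z = 1 ∧ g z = 1) → χ f = χ g) :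
    ∀ f ∈ A, ∀ g ∈ A, lam < f u → lam < g u → χ f = χ g := by
  classical
  intro f hf g hg hfu hgu
  obtain ⟨m, hm, hmax⟩ := Finset.exists_max_image A (fun b => b u) ⟨f, hf⟩
  have key : ∀ n : ℕ, ∀ f ∈ A, lam < f u → (A.filter (fun b => f u < b u)).card = n → χ f = χ m := by
    intro n
    induction n using Nat.strong_induction_on with
    | _ n ih =>
      intro f hf hfu hn
      by_cases hex : ∃ b ∈ A, f u < b u
      · obtain ⟨p, hp1, hp2⟩ := hz f hf
        obtain ⟨b, hb, hbu, z, hz1, hz2, hz3⟩ := step A u p f hp1 hp2 (by linarith) hex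
        have h1 := hχ f hf b hb hfu (by linarith) ⟨z, hz1, hz2, hz3⟩
        have h2 : (A.filter (fun b' => b u < b' u)).card < n := by
          rw [← hn]
          apply Finset.card_lt_card
          rw [Finset.ssubset_iff_of_subset]
          · exact ⟨b, by simp [hb, hbu], by simp⟩
          · intro x hx
            simp only [Finset.mem_filter] at hx ⊢
            exact ⟨hx.1, by linarith [hx.2]⟩
        rw [h1]
        exact ih _ h2 b hb (by linarith) rfl
      · push Not at hex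
        have hfm : f u = m u := le_antisymm (hmax f hf) (hex m hm)
        have hfpos : 0 < f u := by linarith
        apply hχ f hf m hm hfu (by rw [← hfm]; exact hfu)
        refine ⟨(f u)⁻¹ • u, ?_, ?_, ?_⟩
        · intro b hb
          rw [map_smul, smul_eq_mul, ← div_eq_inv_mul, div_le_one hfpos]
          exact hex b hb
        · rw [map_smul, smul_eq_mul, inv_mul_cancel₀ hfpos.ne']
        · rw [map_smul, smul_eq_mul, ← hfm, inv_mul_cancel₀ hfpos.ne']
  rw [key _ f hf hfu rfl, key _ g hg hgu rfl]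

/-- a functional vanishing on the kernel intersection -/
lemma eps_exists {ι : Type*} (s : Finset ι) (α β : ι → ℝ) (hα : ∀ i ∈ s, 0 < α i) :
    ∃ ε : ℝ, 0 < ε ∧ ∀ i ∈ s, ε * β i ≤ α i := by
  classical
  induction s using Finset.induction_on with
  | empty => exact ⟨1, one_pos, by simp⟩
  | insert i s hi ih =>
    obtain ⟨ε, hε, h⟩ := ih (fun j hj => hα j (Finset.mem_insert_of_mem hj))
    have hαi := hα i (Finset.mem_insert_self _ _)
    by_cases hb : β i ≤ 0
    · refine ⟨ε, hε, ?_⟩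
      intro j hj
      rcases Finset.mem_insert.mp hj with rfl | hj
      · nlinarith
      · exact h j hj
    · push Not at hb
      refine ⟨min ε (α i / β i), lt_min hε (div_pos hαi hb), ?_⟩
      intro j hj
      rcases Finset.mem_insert.mp hj with rfl | hj
      · calc min ε (α j / β j) * β j ≤ (α j / β j) * β j :=
            mul_le_mul_of_nonneg_right (min_le_right _ _) hb.le
          _ = α j := div_mul_cancel₀ _ hb.ne'
      · by_cases hbj : β j ≤ 0
        · have : 0 < min ε (α i / β i) := lt_min hε (div_pos hαi hb)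
          have h3 := hα j (Finset.mem_insert_of_mem hj)
          nlinarith
        · push Not at hbj
          calc min ε (α i / β i) * β j ≤ ε * β j :=
              mul_le_mul_of_nonneg_right (min_le_left _ _) hbj.le
            _ ≤ α j := h j hj

end algebra

section dim3

variable {V : Type*} [AddCommGroup V] [Module ℝ V] [FiniteDimensional ℝ V]

lemma exists_killed2 (h3 : finrank ℝ V = 3) (f g : V →ₗ[ℝ] ℝ) : ∃ w : V, w ≠ 0 ∧ f w = 0 ∧ g w = 0 := by
  have h := LinearMap.ker_ne_bot_of_finrank_lt (f := LinearMap.pi ![f, g]) (by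
    simp [h3])
  obtain ⟨w, hw, hw0⟩ := (Submodule.ne_bot_iff _).mp h
  refine ⟨w, hw0, ?_, ?_⟩
  · have := congrFun (LinearMap.mem_ker.mp hw) 0
    simpa using this
  · have := congrFun (LinearMap.mem_ker.mp hw) 1
    simpa using this

/-- genericity -/
def Generic (S : Finset (V →ₗ[ℝ] ℝ)) (c : V →ₗ[ℝ] ℝ) : Prop :=
  ∀ T ⊆ S, Submodule.span ℝ (T : Set (V →ₗ[ℝ] ℝ)) ≠ ⊤ → c ∉ Submodule.span ℝ (T : Set (V →ₗ[ℝ] ℝ))

lemma exists_generic (S : Finset (V →ₗ[ℝ] ℝ)) : ∃ c, Generic S c := by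
  classical
  have h := Subspace.biUnion_ne_univ_of_top_notMem (k := ℝ) (E := (V →ₗ[ℝ] ℝ))
    (s := (S.powerset.image (fun T : Finset (V →ₗ[ℝ] ℝ) => Submodule.span ℝ (T : Set (V →ₗ[ℝ] ℝ)))).filter (fun W => W ≠ ⊤))
    (by simp)
  obtain ⟨c, hc⟩ := (Set.ne_univ_iff_exists_notMem _).mp h
  refine ⟨c, ?_⟩
  intro T hT hne hmem
  apply hc
  simp only [Set.mem_iUnion]
  refine ⟨Submodule.span ℝ (T : Set (V →ₗ[ℝ] ℝ)), ?_, hmem⟩
  rw [Finset.mem_filter]
  exact ⟨Finset.mem_image_of_mem _ (Finset.mem_powerset.mpr hT), hne⟩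

lemma killed_of_span {T : Set (V →ₗ[ℝ] ℝ)} {w : V} (hT : ∀ f ∈ T, f w = 0) :
    ∀ f ∈ Submodule.span ℝ T, f w = 0 := by
  intro f hf
  induction hf using Submodule.span_induction with
  | mem x hx => exact hT x hx
  | zero => simp
  | add x y _ _ hx hy => simp [hx, hy]
  | smul a x _ hx => simp [hx]

lemma eq_zero_of_forall_dual {w : V} (h : ∀ f : V →ₗ[ℝ] ℝ, f w = 0) : w = 0 :=
  (Module.forall_dual_apply_eq_zero_iff ℝ w).mp h

lemma span_ne_top_of_killed {T : Set (V →ₗ[ℝ] ℝ)} {w : V} (hw : w ≠ 0) (hT : ∀ f ∈ T, f w = 0) :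
    Submodule.span ℝ T ≠ ⊤ := by
  intro h
  apply hw
  apply eq_zero_of_forall_dual
  intro f
  exact killed_of_span hT f (by rw [h]; trivial)

lemma span_eq_top_of_spanning {T : Finset (V →ₗ[ℝ] ℝ)} (h : ∀ w, (∀ f ∈ T, f w = 0) → w = 0) :
    Submodule.span ℝ (T : Set (V →ₗ[ℝ] ℝ)) = ⊤ := by
  classical
  rw [eq_top_iff]
  intro f _
  have := mem_span_of_iInf_ker_le_ker (L := fun i : T => (i : V →ₗ[ℝ] ℝ)) (K := f) (by
    intro w hw
    simp only [Submodule.mem_iInf, LinearMap.mem_ker] at hw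
    have := h w (fun g hg => hw ⟨g, hg⟩)
    rw [this]; simp)
  have hr : Set.range (fun i : T => (i : V →ₗ[ℝ] ℝ)) = (T : Set (V →ₗ[ℝ] ℝ)) := by
    ext x; simp
  rw [hr] at this
  exact this

lemma genpair (h3 : finrank ℝ V = 3) (S : Finset (V →ₗ[ℝ] ℝ)) (c : V →ₗ[ℝ] ℝ) (hc : Generic S c)
    (j k : V →ₗ[ℝ] ℝ) (hj : j ∈ S) (hk : k ∈ S) (hj0 : j ≠ 0) (w : V) (hw : w ≠ 0)
    (hjw : j w = 0) (hkw : k w = 0) (hcw : c w = 0) : ∃ μ : ℝ, k = μ • j := by
  classical
  by_contra hcon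
  push Not at hcon
  have hli : LinearIndependent ℝ ![j, k] := by
    rw [LinearIndependent.pair_iff' hj0]
    intro a h
    exact hcon a h.symm
  have hnt := span_ne_top_of_killed (T := (({j, k} : Finset (V →ₗ[ℝ] ℝ)) : Set (V →ₗ[ℝ] ℝ))) hw (by
    intro f hf
    simp only [Finset.coe_insert, Finset.coe_singleton, Set.mem_insert_iff,
      Set.mem_singleton_iff] at hf
    rcases hf with rfl | rfl <;> assumption)
  have hcn := hc {j, k} (by
    intro x hx
    simp only [Finset.mem_insert, Finset.mem_singleton] at hx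
    rcases hx with rfl | rfl <;> assumption) hnt
  have hli3 : LinearIndependent ℝ (Fin.cons c ![j, k] : Fin 3 → (V →ₗ[ℝ] ℝ)) := by
    rw [linearIndependent_finCons]
    refine ⟨hli, ?_⟩
    have : Set.range ![j, k] = (({j, k} : Finset (V →ₗ[ℝ] ℝ)) : Set (V →ₗ[ℝ] ℝ)) := by
      simp only [Matrix.range_cons, Matrix.range_empty, Set.union_empty, Finset.coe_insert,
        Finset.coe_singleton]
      rfl
    rw [this]
    exact hcn
  have htop := hli3.span_eq_top_of_card_eq_finrank' (by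
    rw [Fintype.card_fin]
    have : finrank ℝ (V →ₗ[ℝ] ℝ) = finrank ℝ V := Subspace.dual_finrank_eq
    rw [this, h3])
  refine span_ne_top_of_killed hw ?_ htop
  intro f hf
  obtain ⟨i, rfl⟩ := hf
  fin_cases i
  · exact hcw
  · exact hjw
  · exact hkw

lemma key3 (h3 : finrank ℝ V = 3) (S : Finset (V →ₗ[ℝ] ℝ)) (c : V →ₗ[ℝ] ℝ) (hc : Generic S c)
    (J : Finset (V →ₗ[ℝ] ℝ)) (hJS : J ⊆ S) (hJ : ∀ w, (∀ j ∈ J, j w = 0) → w = 0) :
    ∃ j ∈ J, (∀ u, (∀ k ∈ J, k u ≤ 0) → j u = 0 → u ≠ 0 → c u < 0) ∨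
      (∀ u, (∀ k ∈ J, k u ≤ 0) → j u = 0 → u ≠ 0 → 0 < c u) := by
  classical
  by_contra hcon
  push Not at hcon
  have hw : ∀ j ∈ J, ∃ w, (∀ k ∈ J, k w ≤ 0) ∧ j w = 0 ∧ w ≠ 0 ∧ c w = 0 := by
    intro j hj
    obtain ⟨⟨u, hu1, hu2, hu3, hu4⟩, ⟨u', hu1', hu2', hu3', hu4'⟩⟩ := hcon j hj
    by_cases h0 : c u = 0
    · exact ⟨u, hu1, hu2, hu3, h0⟩
    by_cases h0' : c u' = 0
    · exact ⟨u', hu1', hu2', hu3', h0'⟩
    have hp : 0 < c u := lt_of_le_of_ne hu4 (Ne.symm h0)
    have hn : c u' < 0 := lt_of_le_of_ne hu4' h0'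
    refine ⟨(-c u') • u + (c u) • u', ?_, ?_, ?_, ?_⟩
    · intro k hk
      have h1 := hu1 k hk
      have h2 := hu1' k hk
      simp only [map_add, map_smul, smul_eq_mul]
      nlinarith
    · simp [hu2, hu2']
    · intro h
      apply hu3
      apply hJ
      intro k hk
      have h1 := hu1 k hk
      have h2 := hu1' k hk
      have h4 := congrArg k h
      simp only [map_add, map_smul, smul_eq_mul, map_zero] at h4
      nlinarith
    · simp only [map_add, map_smul, smul_eq_mul]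
      ring
  obtain ⟨w0, hw0, _, _⟩ := exists_killed2 h3 (0 : V →ₗ[ℝ] ℝ) 0
  obtain ⟨j1, hj1, hj1w0⟩ : ∃ j1 ∈ J, j1 w0 ≠ 0 := by
    by_contra h
    push Not at h
    exact hw0 (hJ w0 h)
  have hj10 : j1 ≠ 0 := by
    rintro rfl
    simp at hj1w0
  obtain ⟨w1, hw1a, hw1b, hw1c, hw1d⟩ := hw j1 hj1
  obtain ⟨j2, hj2, hj2w1⟩ : ∃ j2 ∈ J, j2 w1 ≠ 0 := by
    by_contra h
    push Not at h
    exact hw1c (hJ w1 h)
  have hj20 : j2 ≠ 0 := by
    rintro rfl
    simp at hj2w1
  obtain ⟨w2, hw2a, hw2b, hw2c, hw2d⟩ := hw j2 hj2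
  obtain ⟨j3, hj3, hj3w1, hj3w2⟩ : ∃ j3 ∈ J, j3 w1 ≠ 0 ∧ j3 w2 ≠ 0 := by
    by_contra h
    push Not at h
    obtain ⟨w, hw0, hw1', hw2'⟩ := exists_killed2 h3 j1 j2
    apply hw0
    apply hJ
    intro j hj
    by_cases hjw : j w1 = 0
    · obtain ⟨μ, rfl⟩ := genpair h3 S c hc j1 j (hJS hj1) (hJS hj) hj10 w1 hw1c hw1b hjw hw1d
      simp [hw1']
    · obtain ⟨μ, rfl⟩ := genpair h3 S c hc j2 j (hJS hj2) (hJS hj) hj20 w2 hw2c hw2b (h j hj hjw) hw2d
      simp [hw2']
  obtain ⟨w3, hw3a, hw3b, hw3c, hw3d⟩ := hw j3 hj3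
  have hdep : ¬ LinearIndependent ℝ ![w1, w2, w3] := by
    intro hli
    have htop := hli.span_eq_top_of_card_eq_finrank' (by simp [h3])
    have hc0 : c = 0 := by
      ext x
      have hx : x ∈ Submodule.span ℝ (Set.range ![w1, w2, w3]) := by rw [htop]; trivial
      induction hx using Submodule.span_induction with
      | mem x hx =>
        obtain ⟨i, rfl⟩ := hx
        fin_cases i
        · exact hw1d
        · exact hw2d
        · exact hw3d
      | zero => simp
      | add x y _ _ hx hy => simpa [hx] using hy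
      | smul a x _ hx => 
        simp only [map_smul, smul_eq_mul, LinearMap.zero_apply] at hx ⊢
        rw [hx, mul_zero]
    apply hc ∅ (Finset.empty_subset _) (by
      simp only [Finset.coe_empty, Submodule.span_empty]
      intro h
      have : j1 ∈ (⊥ : Submodule ℝ (V →ₗ[ℝ] ℝ)) := by rw [h]; trivial
      exact hj10 ((Submodule.mem_bot ℝ).mp this))
    rw [hc0]
    exact Submodule.zero_mem _
  rw [Fintype.not_linearIndependent_iff] at hdep
  obtain ⟨g, hg, i, hi⟩ := hdep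
  simp only [Fin.sum_univ_three, Matrix.cons_val_zero, Matrix.cons_val_one, Matrix.cons_val] at hg
  have hrel : ∀ f : V →ₗ[ℝ] ℝ, g 0 * f w1 + g 1 * f w2 + g 2 * f w3 = 0 := by
    intro f
    have := congrArg f hg
    simpa [map_add, map_smul] using this
  have n1 : j3 w1 < 0 := lt_of_le_of_ne (hw1a j3 hj3) hj3w1
  have n2 : j3 w2 < 0 := lt_of_le_of_ne (hw2a j3 hj3) hj3w2
  have n3 : j2 w1 < 0 := lt_of_le_of_ne (hw1a j2 hj2) hj2w1
  have r3 := hrel j3
  have r2 := hrel j2
  have r1 := hrel j1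
  rw [hw3b] at r3
  rw [hw2b] at r2
  rw [hw1b] at r1
  have m1 := hw2a j1 hj1
  have m2 := hw3a j1 hj1
  have m3 := hw3a j2 hj2
  have hend : j1 w2 = 0 → False := by
    intro h
    obtain ⟨μ, hμ⟩ := genpair h3 S c hc j2 j1 (hJS hj2) (hJS hj1) hj20 w2 hw2c hw2b h hw2d
    have : j1 w1 = μ * j2 w1 := by rw [hμ]; simp
    rw [hw1b] at this
    have hμ0 : μ = 0 := by
      rcases mul_eq_zero.mp this.symm with h | h
      · exact h
      · exact absurd h hj2w1
    rw [hμ0, zero_smul] at hμ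
    exact hj10 hμ
  rcases lt_trichotomy (g 0) 0 with h | h | h
  · have hg1 : 0 < g 1 := by
      by_contra hh
      push Not at hh
      nlinarith
    by_cases hg2 : g 2 ≤ 0
    · nlinarith
    · push Not at hg2
      apply hend
      have e1 : g 1 * j1 w2 ≤ 0 := by nlinarith
      have e2 : g 2 * j1 w3 ≤ 0 := by nlinarith
      have e3 : g 1 * j1 w2 = 0 := by linarith
      rcases mul_eq_zero.mp e3 with h' | h'
      · exact absurd h' hg1.ne'
      · exact h'
  · have hg1 : g 1 = 0 := by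
      rw [h] at r3
      have : g 1 * j3 w2 = 0 := by linarith
      rcases mul_eq_zero.mp this with h' | h'
      · exact h'
      · exact absurd h' hj3w2
    have hg2 : g 2 = 0 := by
      rw [h, hg1] at hg
      simp only [zero_smul, zero_add] at hg
      rcases smul_eq_zero.mp hg with h' | h'
      · exact h'
      · exact absurd h' hw3c
    apply hi
    fin_cases i
    · exact h
    · exact hg1
    · exact hg2
  · have hg1 : g 1 < 0 := by
      by_contra hh
      push Not at hh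
      nlinarith
    by_cases hg2 : 0 ≤ g 2
    · nlinarith
    · push Not at hg2
      apply hend
      have e1 : 0 ≤ g 1 * j1 w2 := by nlinarith
      have e2 : 0 ≤ g 2 * j1 w3 := by nlinarith
      have e3 : g 1 * j1 w2 = 0 := by linarith
      rcases mul_eq_zero.mp e3 with h' | h'
      · exact absurd h' hg1.ne
      · exact h'

end dim3

end FacetRep
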