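import Pool.Agent.V11151.FR.Norm

set_option autoImplicit false
set_option linter.unusedSectionVars false

namespace FacetRep

open Module

variable {d : ℕ}

lemma exists_rep (A : Finset (E d →ₗ[ℝ] ℝ)) : ∃ K : Finset (E d), Represents (Qset A) K := by
  classical
  have h : ∀ a : E d →ₗ[ℝ] ℝ, ∃ x : E d, (∃ y ∈ Qset A, a y = 1) → x ∈ Qset A ∧ a x = 1 := by
    intro a
    by_cases h : ∃ y ∈ Qset A, a y = 1
    · obtain ⟨y, hy, hay⟩ := h
      exact ⟨y, fun _ => ⟨hy, hay⟩⟩
    · exact ⟨0, fun h' => absurd h' h⟩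
  choose f hf using h
  refine ⟨(A.filter (fun a => ∃ y ∈ Qset A, a y = 1)).image f, ?_, ?_⟩
  · intro x hx
    obtain ⟨a, ha, rfl⟩ := Finset.mem_image.mp hx
    rw [Finset.mem_filter] at ha
    obtain ⟨h1, h2⟩ := hf a ha.2
    refine mem_frontier_of (P := Qset A) (φ := a) (b := 1) ?_ (fun y hy => hy a ha.1) h1 h2
    rintro rfl
    simp at h2
  · intro F hF
    have hne := hF.1
    obtain ⟨a, ha, rfl⟩ := facet_eq (Qset_interior A) hF
    obtain ⟨y, hy⟩ := hne
    have hex : ∃ y ∈ Qset A, a y = 1 := ⟨y, hy.1, hy.2⟩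
    refine ⟨f a, Finset.mem_image_of_mem _ (Finset.mem_filter.mpr ⟨ha, hex⟩), hf a hex⟩

lemma lower_lemma (hd : 0 < d) (A J : Finset (E d →ₗ[ℝ] ℝ)) (hJA : J ⊆ A)
    (hz : ∀ j ∈ J, ∃ z, j z = 1 ∧ ∀ b ∈ A, b ≠ j → b z < 1)
    (hdisj : ∀ j ∈ J, ∀ j' ∈ J, j ≠ j' → ∀ x ∈ Qset A, j x = 1 → j' x = 1 → False) :
    J.card ≤ repNumber (Qset A) := by
  classical
  have hne : {k | ∃ K : Finset (E d), Represents (Qset A) K ∧ K.card = k}.Nonempty := by
    obtain ⟨K, hK⟩ := exists_rep A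
    exact ⟨K.card, K, hK, rfl⟩
  obtain ⟨K, hK, hcard⟩ := Nat.sInf_mem hne
  change J.card ≤ sInf _
  rw [← hcard]
  have h : ∀ j ∈ J, ∃ x, x ∈ K ∧ x ∈ Qset A ∧ j x = 1 := by
    intro j hj
    obtain ⟨z, hz1, hz2⟩ := hz j hj
    obtain ⟨x, hx, hx'⟩ := hK.2 _ (isFacet_of_strict hd (hJA hj) hz1 hz2)
    exact ⟨x, hx, hx'.1, hx'.2⟩
  choose! f hf1 hf2 hf3 using h
  apply Finset.card_le_card_of_injOn f
  · intro j hj
    exact hf1 j hj
  · intro j hj j' hj' hjj
    by_contra hne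
    exact hdisj j hj j' hj' hne (f j) (hf2 j hj) (hf3 j hj) (by rw [hjj]; exact hf3 j' hj')

/-- a factor of the truncated products -/
structure Gadget (d : ℕ) where
  α : Type
  β : Type
  [fα : Fintype α]
  [fβ : Fintype β]
  e : α → (E d →ₗ[ℝ] ℝ)
  r : α → ℝ
  q : β → (E d →ₗ[ℝ] ℝ)
  C : β → ℝ
  p : β → E d
  na : α → α
  nb : β → β
  r_pos : ∀ i, 0 < r i
  e_na : ∀ i, e (na i) = -e i
  r_na : ∀ i, r (na i) = r i
  q_nb : ∀ v, q (nb v) = -q v
  C_nb : ∀ v, C (nb v) = C v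
  e_p : ∀ i v, e i (p v) ≤ r i
  C_ge : ∀ v, 1 ≤ C v
  q_p : ∀ v, q v (p v) = C v
  q_p_ne : ∀ v w, v ≠ w → q w (p v) ≤ C w - 1/2
  q_le : ∀ x v, (∀ i, e i x ≤ r i) → q v x ≤ C v
  q_sep : ∀ x v w, v ≠ w → (∀ i, e i x ≤ r i) → C v - 1/4 ≤ q v x → C w - 1/4 ≤ q w x → False

attribute [instance] Gadget.fα Gadget.fβ

theorem product_bound (hd : 0 < d) (G H : Gadget d) (γ : Type) [Fintype γ]
    (ρ : γ → (E d →ₗ[ℝ] ℝ)) (nγ : γ → γ) (hnγ : ∀ k, ρ (nγ k) = -ρ k)
    (c1 : ∀ i w, G.e i (H.p w) = 0) (c2 : ∀ v w, G.q v (H.p w) = 0)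
    (c3 : ∀ i v, H.e i (G.p v) = 0) (c4 : ∀ w v, H.q w (G.p v) = 0)
    (c5 : ∀ k v, ρ k (G.p v) = 0) (c6 : ∀ k w, ρ k (H.p w) = 0)
    (hspan : ∀ x, (∀ i, G.e i x = 0) → (∀ i, H.e i x = 0) → (∀ k, ρ k x = 0) → x = 0) :
    ∃ P : Set (E d), IsCSPolytope P ∧
      Fintype.card G.β * Fintype.card H.β ≤ repNumber P ∧
      numFacets P ≤ Fintype.card G.α + Fintype.card H.α + Fintype.card γ +
        Fintype.card G.β * Fintype.card H.β := by
  classical
  let ι := (G.α ⊕ H.α) ⊕ (γ ⊕ (G.β × H.β))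
  let φ : ι → (E d →ₗ[ℝ] ℝ) := Sum.elim (Sum.elim G.e H.e)
    (Sum.elim ρ (fun vw => G.q vw.1 + H.q vw.2))
  let b : ι → ℝ := Sum.elim (Sum.elim G.r H.r)
    (Sum.elim (fun _ => 1) (fun vw => G.C vw.1 + H.C vw.2 - 1/4))
  have hb : ∀ i, 0 < b i := by
    rintro ((i | i) | (k | ⟨v, w⟩))
    · exact G.r_pos i
    · exact H.r_pos i
    · exact one_pos
    · have h1 := G.C_ge v
      have h2 := H.C_ge w
      simp only [b, Sum.elim_inr]
      linarith
  let A : Finset (E d →ₗ[ℝ] ℝ) := Finset.univ.image (fun i => (b i)⁻¹ • φ i)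
  have hval : ∀ i x, ((b i)⁻¹ • φ i) x = φ i x / b i := by
    intro i x
    rw [LinearMap.smul_apply, smul_eq_mul, div_eq_inv_mul]
  have hQ : ∀ x, x ∈ Qset A ↔ ∀ i, φ i x ≤ b i := by
    intro x
    constructor
    · intro hx i
      have := hx _ (Finset.mem_image_of_mem _ (Finset.mem_univ i))
      rw [hval, div_le_one (hb i)] at this
      exact this
    · intro hx a ha
      obtain ⟨i, _, rfl⟩ := Finset.mem_image.mp ha
      rw [hval, div_le_one (hb i)]
      exact hx i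
  have hsymm : ∀ a ∈ A, -a ∈ A := by
    intro a ha
    obtain ⟨i, _, rfl⟩ := Finset.mem_image.mp ha
    have : ∃ i', φ i' = -φ i ∧ b i' = b i := by
      rcases i with ((i | i) | (k | ⟨v, w⟩))
      · exact ⟨Sum.inl (Sum.inl (G.na i)), G.e_na i, G.r_na i⟩
      · exact ⟨Sum.inl (Sum.inr (H.na i)), H.e_na i, H.r_na i⟩
      · exact ⟨Sum.inr (Sum.inl (nγ k)), hnγ k, rfl⟩
      · refine ⟨Sum.inr (Sum.inr (G.nb v, H.nb w)), ?_, ?_⟩
        · simp only [φ, Sum.elim_inr, G.q_nb, H.q_nb]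
          abel
        · simp only [b, Sum.elim_inr, G.C_nb, H.C_nb]
    obtain ⟨i', h1, h2⟩ := this
    rw [show -((b i)⁻¹ • φ i) = (b i')⁻¹ • φ i' by rw [h1, h2, smul_neg]]
    exact Finset.mem_image_of_mem _ (Finset.mem_univ i')
  have hspanA : ∀ x, (∀ a ∈ A, a x = 0) → x = 0 := by
    intro x hx
    have h : ∀ i, φ i x = 0 := by
      intro i
      have := hx _ (Finset.mem_image_of_mem _ (Finset.mem_univ i))
      rw [hval, div_eq_zero_iff] at this
      rcases this with h | h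
      · exact h
      · exact absurd h (hb i).ne'
    exact hspan x (fun i => h (Sum.inl (Sum.inl i))) (fun i => h (Sum.inl (Sum.inr i)))
      (fun k => h (Sum.inr (Sum.inl k)))
  -- the truncating functionals
  let ψ : G.β × H.β → (E d →ₗ[ℝ] ℝ) := fun vw => (b (Sum.inr (Sum.inr vw)))⁻¹ • φ (Sum.inr (Sum.inr vw))
  let J : Finset (E d →ₗ[ℝ] ℝ) := Finset.univ.image ψ
  have hzz : ∀ vw : G.β × H.β, ∃ z : E d, φ (Sum.inr (Sum.inr vw)) z = b (Sum.inr (Sum.inr vw)) ∧
      ∀ i, i ≠ Sum.inr (Sum.inr vw) → φ i z < b i := by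
    rintro ⟨v, w⟩
    have hv := G.C_ge v
    have hw := H.C_ge w
    set t : ℝ := 1 - (1/4) / (G.C v + H.C w) with ht
    have hCpos : 0 < G.C v + H.C w := by linarith
    have hq : (1/4) / (G.C v + H.C w) ≤ 1/8 := by
      rw [div_le_iff₀ hCpos]; linarith
    have hq0 : 0 < (1/4) / (G.C v + H.C w) := by positivity
    have ht0 : 0 < t := by rw [ht]; linarith
    have ht1 : t < 1 := by rw [ht]; linarith
    have hsmall : ∀ x c : ℝ, x ≤ c → 0 < c → t * x < c := by
      intro x c hx hc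
      rcases le_or_gt x 0 with h | h
      · nlinarith
      · nlinarith
    refine ⟨t • (G.p v + H.p w), ?_, ?_⟩
    · simp only [φ, b, Sum.elim_inr, LinearMap.add_apply, map_smul, map_add, smul_eq_mul]
      rw [G.q_p, H.q_p, c2, c4, ht]
      field_simp
      ring
    · rintro ((i | i) | (k | ⟨v', w'⟩)) hne
      · simp only [φ, b, Sum.elim_inl, map_smul, map_add, smul_eq_mul]
        rw [c1, add_zero]
        exact hsmall _ _ (G.e_p i v) (G.r_pos i)
      · simp only [φ, b, Sum.elim_inl, Sum.elim_inr, map_smul, map_add, smul_eq_mul]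
        rw [c3, zero_add]
        exact hsmall _ _ (H.e_p i w) (H.r_pos i)
      · simp only [φ, b, Sum.elim_inl, Sum.elim_inr, map_smul, map_add, smul_eq_mul]
        rw [c5, c6]
        norm_num
      · simp only [φ, b, Sum.elim_inr, LinearMap.add_apply, map_smul, map_add, smul_eq_mul]
        rw [c2, c4]
        have hC1 := G.C_ge v'
        have hC2 := H.C_ge w'
        have h1 : G.q v' (G.p v) ≤ G.C v' := G.q_le _ _ (fun i => G.e_p i v)
        have h2 : H.q w' (H.p w) ≤ H.C w' := H.q_le _ _ (fun i => H.e_p i w)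
        have h3 : G.q v' (G.p v) + H.q w' (H.p w) ≤ G.C v' + H.C w' - 1/2 := by
          by_cases hvv : v = v'
          · have hww : w ≠ w' := by
              rintro rfl
              exact hne (by rw [hvv])
            have := H.q_p_ne w w' hww
            linarith
          · have := G.q_p_ne v v' hvv
            linarith
        have h4 := hsmall _ _ h3 (by linarith)
        nlinarith
  have hstrict : ∀ vw : G.β × H.β, ∃ z, ψ vw z = 1 ∧ ∀ a ∈ A, a ≠ ψ vw → a z < 1 := by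
    intro vw
    obtain ⟨z, hz1, hz2⟩ := hzz vw
    refine ⟨z, ?_, ?_⟩
    · simp only [ψ]
      rw [hval, hz1, div_self (hb _).ne']
    · intro a ha hne
      obtain ⟨i, _, rfl⟩ := Finset.mem_image.mp ha
      rw [hval, div_lt_one (hb i)]
      apply hz2
      rintro rfl
      exact hne rfl
  have hψinj : Function.Injective ψ := by
    intro vw vw' h
    by_contra hne
    obtain ⟨z, hz1, hz2⟩ := hzz vw
    have h1 : ψ vw z = 1 := by
      simp only [ψ]
      rw [hval, hz1, div_self (hb _).ne']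
    have h2 : ψ vw' z < 1 := by
      simp only [ψ]
      rw [hval, div_lt_one (hb _)]
      apply hz2
      intro h'
      apply hne
      exact (Sum.inr_injective (Sum.inr_injective h')).symm
    rw [← h] at h2
    linarith
  have hJcard : J.card = Fintype.card G.β * Fintype.card H.β := by
    simp only [J]
    rw [Finset.card_image_of_injective _ hψinj, Finset.card_univ, Fintype.card_prod]
  refine ⟨Qset A, isCSPolytope_Qset hsymm hspanA, ?_, ?_⟩
  · rw [← hJcard]
    apply lower_lemma hd A J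
    · intro j hj
      obtain ⟨vw, _, rfl⟩ := Finset.mem_image.mp hj
      exact Finset.mem_image_of_mem _ (Finset.mem_univ _)
    · intro j hj
      obtain ⟨vw, _, rfl⟩ := Finset.mem_image.mp hj
      exact hstrict vw
    · intro j hj j' hj' hne x hx h1 h2
      obtain ⟨⟨v, w⟩, _, rfl⟩ := Finset.mem_image.mp hj
      obtain ⟨⟨v', w'⟩, _, rfl⟩ := Finset.mem_image.mp hj'
      rw [hQ] at hx
      have hxG : ∀ i, G.e i x ≤ G.r i := fun i => hx (Sum.inl (Sum.inl i))
      have hxH : ∀ i, H.e i x ≤ H.r i := fun i => hx (Sum.inl (Sum.inr i))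
      simp only [ψ] at h1 h2
      rw [hval, div_eq_one_iff_eq (hb _).ne'] at h1 h2
      simp only [φ, b, Sum.elim_inr, LinearMap.add_apply] at h1 h2
      have e1 := G.q_le x v hxG
      have e2 := G.q_le x v' hxG
      have e3 := H.q_le x w hxH
      have e4 := H.q_le x w' hxH
      by_cases hvv : v = v'
      · have hww : w ≠ w' := by
          rintro rfl
          exact hne (by rw [hvv])
        exact H.q_sep x w w' hww hxH (by linarith) (by linarith)
      · exact G.q_sep x v v' hvv hxG (by linarith) (by linarith)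
  · refine (numFacets_le A).trans ?_
    refine Finset.card_image_le.trans ?_
    rw [Finset.card_univ]
    simp only [ι, Fintype.card_sum, Fintype.card_prod]
    omega

end FacetRep
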