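import Pool.Agent.V11151.FR.Defs
import Pool.Agent.V11151.FR.Few

set_option autoImplicit false
set_option linter.unusedSectionVars false

namespace FacetRep

open Module

variable {d : ℕ}

lemma finrank_E (d : ℕ) : finrank ℝ (E d) = d := by simp

lemma not_interior {P : Set (E d)} {φ : E d →ₗ[ℝ] ℝ} {b : ℝ} (hφ : φ ≠ 0)
    (hP : ∀ x ∈ P, φ x ≤ b) {x : E d} (hx : φ x = b) : x ∉ interior P := by
  intro hint
  obtain ⟨w, hw⟩ : ∃ w, φ w ≠ 0 := by
    by_contra h
    push Not at h
    exact hφ (LinearMap.ext h)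
  have hcont : Filter.Tendsto (fun t : ℝ => x + t • ((φ w)⁻¹ • w)) (nhds 0) (nhds x) := by
    have : Continuous (fun t : ℝ => x + t • ((φ w)⁻¹ • w)) := by fun_prop
    have h := this.tendsto 0
    simpa using h
  have hmem : P ∈ nhds x := mem_interior_iff_mem_nhds.mp hint
  have hev := hcont hmem
  obtain ⟨δ, hδ, hball⟩ := Metric.mem_nhds_iff.mp hev
  have h1 : (δ / 2) ∈ Metric.ball (0 : ℝ) δ := by
    rw [Metric.mem_ball, dist_zero_right, Real.norm_eq_abs, abs_of_pos (by linarith)]
    linarith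
  have h2 := hP _ (hball h1)
  rw [map_add, map_smul, map_smul, smul_eq_mul, smul_eq_mul, inv_mul_cancel₀ hw, hx] at h2
  linarith

lemma mem_frontier_of {P : Set (E d)} {φ : E d →ₗ[ℝ] ℝ} {b : ℝ} (hφ : φ ≠ 0)
    (hP : ∀ x ∈ P, φ x ≤ b) {x : E d} (hxP : x ∈ P) (hx : φ x = b) : x ∈ frontier P :=
  ⟨subset_closure hxP, not_interior hφ hP hx⟩

lemma finrank_ker (_hd : 0 < d) {φ : E d →ₗ[ℝ] ℝ} (hφ : φ ≠ 0) :
    finrank ℝ (LinearMap.ker φ) + 1 = d := by
  have h1 := LinearMap.finrank_range_add_finrank_ker φ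
  have h2 : LinearMap.range φ = ⊤ := LinearMap.range_eq_top.mpr (LinearMap.surjective hφ)
  rw [h2, finrank_top, finrank_self, finrank_E] at h1
  omega

lemma zero_interior {P : Set (E d)} (hconv : Convex ℝ P) (hs : ∀ x ∈ P, -x ∈ P)
    (hint : (interior P).Nonempty) : (0 : E d) ∈ interior P := by
  obtain ⟨x, hx⟩ := hint
  have hx' := hs x (interior_subset hx)
  have := hconv.combo_interior_self_mem_interior hx hx' (a := 1/2) (b := 1/2) (by norm_num)
    (by norm_num) (by norm_num)
  simpa using this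

lemma Qset_convex (A : Finset (E d →ₗ[ℝ] ℝ)) : Convex ℝ (Qset A) := by
  intro x hx y hy a b ha hb hab j hj
  rw [map_add, map_smul, map_smul, smul_eq_mul, smul_eq_mul]
  have h1 := hx j hj
  have h2 := hy j hj
  nlinarith

/-- every facet comes from one of the inequalities -/
lemma facet_eq {A : Finset (E d →ₗ[ℝ] ℝ)} (hint : (interior (Qset A)).Nonempty)
    {F : Set (E d)} (hF : IsFacet (Qset A) F) :
    ∃ a ∈ A, F = {x | x ∈ Qset A ∧ a x = 1} := by
  classical
  obtain ⟨hne, ⟨ψ, β, hψ, hFe⟩, hdim⟩ := hF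
  have hd : 0 < d := by omega
  have hψ0 : ψ ≠ 0 := by
    rintro rfl
    have hFP : F = Qset A := by
      obtain ⟨x, hx⟩ := hne
      rw [hFe] at hx
      have hβ : (0 : ℝ) = β := by simpa using hx.2
      rw [hFe]
      ext y
      simp [← hβ]
    have hspan : vectorSpan ℝ F = ⊤ := by
      rw [hFP, ← direction_affineSpan]
      have : affineSpan ℝ (Qset A) = ⊤ := by
        have h1 : affineSpan ℝ (interior (Qset A)) = ⊤ :=
          isOpen_interior.affineSpan_eq_top hint
        have h2 := affineSpan_mono ℝ (interior_subset (s := Qset A))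
        rw [h1] at h2
        exact top_unique h2
      rw [this, AffineSubspace.direction_top]
    rw [hspan, finrank_top, finrank_E] at hdim
    omega
  -- relative interior point
  have hFmem : ∀ x ∈ F, x ∈ Qset A ∧ ψ x = β := by
    intro x hx; rw [hFe] at hx; exact hx
  have hrel : ∀ s : Finset (E d →ₗ[ℝ] ℝ), s ⊆ A →
      ∃ x0 ∈ F, ∀ a ∈ s, a x0 = 1 → ∀ x ∈ F, a x = 1 := by
    intro s
    induction s using Finset.induction_on with
    | empty =>
      intro _
      obtain ⟨x, hx⟩ := hne
      exact ⟨x, hx, by simp⟩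
    | insert i s his ih =>
      intro hsub
      obtain ⟨x0, hx0, h0⟩ := ih (fun j hj => hsub (Finset.mem_insert_of_mem hj))
      by_cases hall : ∀ x ∈ F, i x = 1
      · refine ⟨x0, hx0, ?_⟩
        intro a ha
        rcases Finset.mem_insert.mp ha with rfl | ha
        · intro _; exact hall
        · exact h0 a ha
      · push Not at hall
        obtain ⟨xi, hxi, hxi1⟩ := hall
        have hm0 := hFmem x0 hx0
        have hmi := hFmem xi hxi
        have hiA : i ∈ A := hsub (Finset.mem_insert_self _ _)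
        refine ⟨(1/2 : ℝ) • x0 + (1/2 : ℝ) • xi, ?_, ?_⟩
        · rw [hFe]
          refine ⟨Qset_convex A hm0.1 hmi.1 (by norm_num) (by norm_num) (by norm_num), ?_⟩
          rw [map_add, map_smul, map_smul, smul_eq_mul, smul_eq_mul, hm0.2, hmi.2]
          ring
        · intro a ha hax
          have haA : a ∈ A := hsub ha
          rw [map_add, map_smul, map_smul, smul_eq_mul, smul_eq_mul] at hax
          have h1 := hm0.1 a haA
          have h2 := hmi.1 a haA
          have e1 : a x0 = 1 := by linarith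
          have e2 : a xi = 1 := by linarith
          rcases Finset.mem_insert.mp ha with rfl | ha
          · exact absurd e2 hxi1
          · exact h0 a ha e1
  obtain ⟨x0, hx0, hx0'⟩ := hrel A (Finset.Subset.refl _)
  have hm0 := hFmem x0 hx0
  obtain ⟨a, haA, hax0⟩ : ∃ a ∈ A, a x0 = 1 := by
    by_contra hcon
    push Not at hcon
    obtain ⟨w, hw⟩ : ∃ w, 0 < ψ w := by
      obtain ⟨w, hw⟩ : ∃ w, ψ w ≠ 0 := by
        by_contra h
        push Not at h
        exact hψ0 (LinearMap.ext h)
      rcases lt_or_gt_of_ne hw with h | h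
      · exact ⟨-w, by rw [map_neg]; linarith⟩
      · exact ⟨w, h⟩
    obtain ⟨ε, hε, hmove⟩ := exists_move A x0 hm0.1 w (fun j hj hj1 => absurd hj1 (hcon j hj))
    have := hψ _ hmove
    rw [map_add, map_smul, smul_eq_mul, hm0.2] at this
    nlinarith
  have haF := hx0' a haA hax0
  have ha0 : a ≠ 0 := by
    rintro rfl
    simp at hax0
  -- dimensions
  have hv1 : vectorSpan ℝ F ≤ LinearMap.ker ψ := by
    rw [vectorSpan_def, Submodule.span_le]
    rintro v ⟨x, hx, y, hy, rfl⟩
    simp only [vsub_eq_sub, SetLike.mem_coe, LinearMap.mem_ker, map_sub]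
    rw [(hFmem x hx).2, (hFmem y hy).2, sub_self]
  have hv2 : vectorSpan ℝ F ≤ LinearMap.ker a := by
    rw [vectorSpan_def, Submodule.span_le]
    rintro v ⟨x, hx, y, hy, rfl⟩
    simp only [vsub_eq_sub, SetLike.mem_coe, LinearMap.mem_ker, map_sub]
    rw [haF x hx, haF y hy, sub_self]
  have hk1 := finrank_ker hd hψ0
  have hk2 := finrank_ker hd ha0
  have he1 : vectorSpan ℝ F = LinearMap.ker ψ := Submodule.eq_of_le_of_finrank_eq hv1 (by omega)
  have he2 : vectorSpan ℝ F = LinearMap.ker a := Submodule.eq_of_le_of_finrank_eq hv2 (by omega)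
  refine ⟨a, haA, ?_⟩
  ext x
  constructor
  · intro hx
    exact ⟨(hFmem x hx).1, haF x hx⟩
  · rintro ⟨hxP, hx1⟩
    rw [hFe]
    refine ⟨hxP, ?_⟩
    have : x - x0 ∈ LinearMap.ker a := by
      rw [LinearMap.mem_ker, map_sub, hx1, hax0, sub_self]
    rw [← he2, he1, LinearMap.mem_ker, map_sub, hm0.2] at this
    linarith

lemma isFacet_of_strict (hd : 0 < d) {A : Finset (E d →ₗ[ℝ] ℝ)} {a : E d →ₗ[ℝ] ℝ} (ha : a ∈ A)
    {z : E d} (hz1 : a z = 1) (hz2 : ∀ b ∈ A, b ≠ a → b z < 1) :
    IsFacet (Qset A) {x | x ∈ Qset A ∧ a x = 1} := by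
  classical
  have hzQ : z ∈ Qset A := by
    intro b hb
    by_cases h : b = a
    · rw [h, hz1]
    · exact (hz2 b hb h).le
  have ha0 : a ≠ 0 := by
    rintro rfl
    simp at hz1
  refine ⟨⟨z, hzQ, hz1⟩, ⟨a, 1, fun x hx => hx a ha, rfl⟩, ?_⟩
  have he : vectorSpan ℝ {x | x ∈ Qset A ∧ a x = 1} = LinearMap.ker a := by
    apply le_antisymm
    · rw [vectorSpan_def, Submodule.span_le]
      rintro v ⟨x, hx, y, hy, rfl⟩
      simp only [vsub_eq_sub, SetLike.mem_coe, LinearMap.mem_ker, map_sub]
      rw [hx.2, hy.2, sub_self]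
    · intro w hw
      rw [LinearMap.mem_ker] at hw
      obtain ⟨ε, hε, hmove⟩ := exists_move A z hzQ w (by
        intro j hj hj1
        by_cases h : j = a
        · rw [h, hw]
        · exact absurd hj1 (hz2 j hj h).ne)
      have h1 : (z + ε • w) -ᵥ z ∈ vectorSpan ℝ {x | x ∈ Qset A ∧ a x = 1} := by
        apply vsub_mem_vectorSpan
        · exact ⟨hmove, by rw [map_add, map_smul, hw, hz1]; simp⟩
        · exact ⟨hzQ, hz1⟩
      have h2 : (z + ε • w) -ᵥ z = ε • w := by
        rw [vsub_eq_sub]; abel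
      rw [h2] at h1
      exact (Submodule.smul_mem_iff _ hε.ne').mp h1
  rw [he]
  exact finrank_ker hd ha0

/-- normal form of a centrally symmetric polytope -/
theorem exists_irr {P : Set (E d)} (hP : IsCSPolytope P) :
    ∃ A : Finset (E d →ₗ[ℝ] ℝ), Irr A ∧ P = Qset A := by
  classical
  obtain ⟨⟨hbd, m, φ, b, hPe⟩, hsymm, hint⟩ := hP
  have hconv : Convex ℝ P := by
    rw [hPe]
    intro x hx y hy s t hs ht hst i
    rw [map_add, map_smul, map_smul, smul_eq_mul, smul_eq_mul]
    have h1 := hx i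
    have h2 := hy i
    have : b i = s * b i + t * b i := by rw [← add_mul, hst, one_mul]
    rw [this]
    exact add_le_add (mul_le_mul_of_nonneg_left h1 hs) (mul_le_mul_of_nonneg_left h2 ht)
  have h0 := zero_interior hconv hsymm hint
  have h0P : (0 : E d) ∈ P := interior_subset h0
  have hb0 : ∀ i, 0 ≤ b i := by
    intro i
    rw [hPe] at h0P
    have := h0P i
    simpa using this
  have hbpos : ∀ i, φ i ≠ 0 → 0 < b i := by
    intro i hi
    rcases (hb0 i).lt_or_eq with h | h
    · exact h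
    · exfalso
      refine not_interior (P := P) (φ := φ i) (b := b i) hi ?_ (x := 0) ?_ h0
      · intro x hx
        rw [hPe] at hx
        exact hx i
      · rw [map_zero]; exact h
  let A0 : Finset (E d →ₗ[ℝ] ℝ) :=
    (Finset.univ.filter (fun i => φ i ≠ 0)).image (fun i => (b i)⁻¹ • φ i)
  have hA0 : P = Qset A0 := by
    rw [hPe]
    ext x
    constructor
    · intro hx j hj
      obtain ⟨i, hi, rfl⟩ := Finset.mem_image.mp hj
      have hi' := (Finset.mem_filter.mp hi).2
      rw [LinearMap.smul_apply, smul_eq_mul, ← div_eq_inv_mul, div_le_one (hbpos i hi')]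
      exact hx i
    · intro hx i
      by_cases hi : φ i = 0
      · rw [hi]; simpa using hb0 i
      · have := hx ((b i)⁻¹ • φ i) (Finset.mem_image_of_mem _ (by simp [hi]))
        rw [LinearMap.smul_apply, smul_eq_mul, ← div_eq_inv_mul, div_le_one (hbpos i hi)] at this
        exact this
  let A1 : Finset (E d →ₗ[ℝ] ℝ) := A0 ∪ A0.image (fun a => -a)
  have hA1symm : ∀ a ∈ A1, -a ∈ A1 := by
    intro j hj
    simp only [A1, Finset.mem_union] at hj ⊢
    rcases hj with hj | hj
    · right; exact Finset.mem_image_of_mem _ hj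
    · left
      obtain ⟨k, hk, rfl⟩ := Finset.mem_image.mp hj
      rw [neg_neg]; exact hk
  have hA1 : Qset A1 = P := by
    rw [hA0]
    ext x
    constructor
    · intro hx j hj
      exact hx j (Finset.mem_union_left _ hj)
    · intro hx j hj
      simp only [A1, Finset.mem_union] at hj
      rcases hj with hj | hj
      · exact hx j hj
      · obtain ⟨k, hk, rfl⟩ := Finset.mem_image.mp hj
        have hx' : x ∈ P := by rw [hA0]; exact hx
        have hx2 := hsymm x hx'
        rw [hA0] at hx2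
        have := hx2 k hk
        rw [map_neg] at this
        rw [LinearMap.neg_apply]
        exact this
  obtain ⟨B, hB, hBmin⟩ := Finset.exists_min_image
    (A1.powerset.filter (fun B => (∀ b ∈ B, -b ∈ B) ∧ Qset B = P)) (fun B => B.card)
    ⟨A1, Finset.mem_filter.mpr ⟨Finset.mem_powerset.mpr (Finset.Subset.refl _), hA1symm, hA1⟩⟩
  rw [Finset.mem_filter, Finset.mem_powerset] at hB
  obtain ⟨hBsub, hBsymm, hBP⟩ := hB
  refine ⟨B, ⟨hBsymm, ?_, ?_⟩, hBP.symm⟩
  · intro a ha
    set B' := (B.erase a).erase (-a) with hB'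
    have hB'symm : ∀ c ∈ B', -c ∈ B' := by
      intro c hc
      simp only [hB', Finset.mem_erase] at hc ⊢
      refine ⟨?_, ?_, hBsymm c hc.2.2⟩
      · intro h; exact hc.2.1 (neg_inj.mp h)
      · intro h; exact hc.1 (by rw [← h, neg_neg])
    have hlt : B'.card < B.card := by
      apply Finset.card_lt_card
      rw [Finset.ssubset_iff_of_subset]
      · exact ⟨a, ha, by simp [hB']⟩
      · intro c hc
        simp only [hB', Finset.mem_erase] at hc
        exact hc.2.2
    have hne : Qset B' ≠ P := by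
      intro h
      have := hBmin B' (Finset.mem_filter.mpr ⟨Finset.mem_powerset.mpr (fun c hc => by
        simp only [hB', Finset.mem_erase] at hc
        exact hBsub hc.2.2), hB'symm, h⟩)
      omega
    have hsub : P ⊆ Qset B' := by
      rw [← hBP]
      intro x hx j hj
      simp only [hB', Finset.mem_erase] at hj
      exact hx j hj.2.2
    obtain ⟨x, hx, hxP⟩ : ∃ x ∈ Qset B', x ∉ P := by
      by_contra hcon
      push Not at hcon
      exact hne (Set.Subset.antisymm hcon hsub)
    rw [← hBP] at hxP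
    unfold Qset at hxP
    simp only [Set.mem_ofPred_eq, not_forall, not_le] at hxP
    obtain ⟨c, hcB, hcx⟩ := hxP
    have hc : c = a ∨ c = -a := by
      by_contra h
      push Not at h
      have := hx c (by simp [hB', h.1, h.2, hcB])
      linarith
    rcases hc with rfl | rfl
    · refine ⟨x, hcx, ?_⟩
      intro c' hc' hne'
      by_cases h : c' = -c
      · rw [h, LinearMap.neg_apply]; linarith
      · exact hx c' (by simp [hB', h, hne', hc'])
    · refine ⟨-x, ?_, ?_⟩
      · rw [map_neg]; rw [LinearMap.neg_apply] at hcx; exact hcx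
      · intro c' hc' hne'
        rw [map_neg]
        by_cases h : c' = -a
        · rw [h]; linarith
        · have := hx (-c') (hB'symm c' (by simp [hB', h, hne', hc']))
          rw [LinearMap.neg_apply] at this
          exact this
  · intro w hw
    by_contra hw0
    obtain ⟨R, hR⟩ := hbd.exists_norm_le
    have hmem : ∀ t : ℝ, t • w ∈ P := by
      intro t
      rw [← hBP]
      intro j hj
      rw [map_smul, hw j hj]
      simp
    have hwpos : 0 < ‖w‖ := norm_pos_iff.mpr hw0
    have h1 := hR _ (hmem ((|R| + 1) / ‖w‖))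
    rw [norm_smul, Real.norm_eq_abs, abs_of_pos (by positivity), div_mul_cancel₀ _ hwpos.ne'] at h1
    have := le_abs_self R
    linarith

lemma isBounded_Qset {A : Finset (E d →ₗ[ℝ] ℝ)} (hsymm : ∀ a ∈ A, -a ∈ A)
    (hspan : ∀ w, (∀ a ∈ A, a w = 0) → w = 0) : Bornology.IsBounded (Qset A) :=
  (Qset_compact A hsymm hspan).isBounded

lemma Qset_interior (A : Finset (E d →ₗ[ℝ] ℝ)) : (interior (Qset A)).Nonempty := by
  classical
  refine ⟨0, ?_⟩
  have h : (⋂ a ∈ A, {x : E d | a x < 1}) ⊆ Qset A := by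
    intro x hx a ha
    simp only [Set.mem_iInter, Set.mem_ofPred_eq] at hx
    exact (hx a ha).le
  have hopen : IsOpen (⋂ a ∈ A, {x : E d | a x < 1}) := by
    apply isOpen_biInter_finset
    intro a _
    exact isOpen_lt (LinearMap.continuous_of_finiteDimensional a) continuous_const
  exact interior_maximal h hopen (by simp)

lemma isCSPolytope_Qset {A : Finset (E d →ₗ[ℝ] ℝ)} (hsymm : ∀ a ∈ A, -a ∈ A)
    (hspan : ∀ w, (∀ a ∈ A, a w = 0) → w = 0) : IsCSPolytope (Qset A) := by
  classical
  refine ⟨⟨isBounded_Qset hsymm hspan, A.card, fun i => (A.equivFin.symm i).1, fun _ => 1, ?_⟩,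
    ?_, Qset_interior A⟩
  · ext x
    constructor
    · intro hx i
      exact hx _ (A.equivFin.symm i).2
    · intro hx a ha
      have := hx (A.equivFin ⟨a, ha⟩)
      simpa using this
  · intro x hx a ha
    have := hx (-a) (hsymm a ha)
    simpa using this

lemma facets_finite (A : Finset (E d →ₗ[ℝ] ℝ)) :
    {F : Set (E d) | IsFacet (Qset A) F} ⊆
      ↑(A.image (fun a => {x | x ∈ Qset A ∧ a x = 1})) := by
  classical
  intro F hF
  obtain ⟨a, ha, rfl⟩ := facet_eq (Qset_interior A) hF
  simp only [Finset.coe_image, Set.mem_image, Finset.mem_coe]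
  exact ⟨a, ha, rfl⟩

lemma numFacets_le (A : Finset (E d →ₗ[ℝ] ℝ)) : numFacets (Qset A) ≤ A.card := by
  classical
  have h1 := Set.ncard_le_ncard (facets_finite A) (Finset.finite_toSet _)
  rw [Set.ncard_coe_finset] at h1
  exact h1.trans Finset.card_image_le

lemma numFacets_eq (hd : 0 < d) {A : Finset (E d →ₗ[ℝ] ℝ)} (hA : Irr A) :
    numFacets (Qset A) = A.card := by
  classical
  apply le_antisymm (numFacets_le A)
  have h1 : ((A : Set (E d →ₗ[ℝ] ℝ))).ncard ≤ {F : Set (E d) | IsFacet (Qset A) F}.ncard := by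
    refine Set.ncard_le_ncard_of_injOn (fun a => {x | x ∈ Qset A ∧ a x = 1}) ?_ ?_ ?_
    · intro a ha
      obtain ⟨z, hz1, hz2⟩ := hA.inner a (Finset.mem_coe.mp ha)
      exact isFacet_of_strict hd (Finset.mem_coe.mp ha) hz1 hz2
    · intro a ha b hb hab
      by_contra hne
      obtain ⟨z, hz1, hz2⟩ := hA.inner a (Finset.mem_coe.mp ha)
      have hzQ : z ∈ Qset A := by
        intro c hc
        by_cases h : c = a
        · rw [h, hz1]
        · exact (hz2 c hc h).le
      have hmem : z ∈ {x | x ∈ Qset A ∧ a x = 1} := ⟨hzQ, hz1⟩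
      simp only at hab
      rw [hab] at hmem
      have := hz2 b (Finset.mem_coe.mp hb) (Ne.symm hne)
      linarith [hmem.2]
    · exact (Finset.finite_toSet _).subset (facets_finite A)
  rw [Set.ncard_coe_finset] at h1
  exact h1

/-- a set of points meeting all the sets `{a = 1}` bounds the representation number -/
lemma repNumber_le {A : Finset (E d →ₗ[ℝ] ℝ)} (K : Finset (E d))
    (hK : ∀ x ∈ K, x ∈ Qset A ∧ ∃ a ∈ A, a x = 1) (hall : ∀ a ∈ A, ∃ x ∈ K, a x = 1) :
    repNumber (Qset A) ≤ K.card := by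
  apply Nat.sInf_le
  refine ⟨K, ⟨?_, ?_⟩, rfl⟩
  · intro x hx
    obtain ⟨hxQ, a, ha, hax⟩ := hK x hx
    refine mem_frontier_of (P := Qset A) (φ := a) (b := 1) ?_ (fun y hy => hy a ha) hxQ hax
    rintro rfl
    simp at hax
  · intro F hF
    obtain ⟨a, ha, rfl⟩ := facet_eq (Qset_interior A) hF
    obtain ⟨x, hx, hax⟩ := hall a ha
    exact ⟨x, hx, (hK x hx).1, hax⟩

lemma Irr.point_mem {A : Finset (E d →ₗ[ℝ] ℝ)} {a : E d →ₗ[ℝ] ℝ} {z : E d} (hz1 : a z = 1)
    (hz2 : ∀ b ∈ A, b ≠ a → b z < 1) : z ∈ Qset A := by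
  classical
  intro c hc
  by_cases h : c = a
  · rw [h, hz1]
  · exact (hz2 c hc h).le

theorem upper_one (hd : 0 < d) {P : Set (E d)} (hP : IsCSPolytope P) :
    repNumber P ≤ numFacets P := by
  classical
  obtain ⟨A, hA, rfl⟩ := exists_irr hP
  rw [numFacets_eq hd hA]
  have h := hA.inner
  choose! z hz1 hz2 using h
  refine (repNumber_le (A.image z) ?_ ?_).trans Finset.card_image_le
  · intro x hx
    obtain ⟨a, ha, rfl⟩ := Finset.mem_image.mp hx
    exact ⟨Irr.point_mem (hz1 a ha) (hz2 a ha), a, ha, hz1 a ha⟩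
  · intro a ha
    exact ⟨z a, Finset.mem_image_of_mem _ ha, hz1 a ha⟩

theorem upper_three {P : Set (E 3)} (hP : IsCSPolytope P) :
    3 * repNumber P ≤ 2 * numFacets P := by
  classical
  obtain ⟨A, hA, rfl⟩ := exists_irr hP
  rw [numFacets_eq (by norm_num) hA]
  obtain ⟨e, he⟩ := hA.exists_e
  have hfew := fewComps (finrank_E 3) hA he
  have hspan : ∀ w, (∀ a ∈ half A e, a w = 0) → w = 0 := by
    intro w hw
    apply hA.spans
    intro a ha
    by_cases h : 0 < a e
    · exact hw a (mem_half.mpr ⟨ha, h⟩)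
    · have h1 := lt_of_le_of_ne (not_lt.mp h) (he a ha)
      have := hw (-a) (mem_half.mpr ⟨hA.symm a ha, by rw [LinearMap.neg_apply]; linarith⟩)
      rw [LinearMap.neg_apply] at this
      linarith
  have hcard3 : 3 ≤ (half A e).card := by
    have h1 := span_eq_top_of_spanning hspan
    have h2 := finrank_span_finset_le_card (R := ℝ) (half A e)
    unfold Set.finrank at h2
    rw [h1, finrank_top] at h2
    have : finrank ℝ (E 3 →ₗ[ℝ] ℝ) = finrank ℝ (E 3) := Subspace.dual_finrank_eq
    rw [this, finrank_E] at h2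
    exact h2
  have hdouble : 2 * (half A e).card ≤ A.card := by
    have hinj : Function.Injective (fun a : E 3 →ₗ[ℝ] ℝ => -a) := neg_injective
    have hdisj : Disjoint (half A e) ((half A e).image (fun a => -a)) := by
      rw [Finset.disjoint_left]
      intro a ha ha'
      obtain ⟨b, hb, rfl⟩ := Finset.mem_image.mp ha'
      have h1 := (mem_half.mp ha).2
      have h2 := (mem_half.mp hb).2
      rw [LinearMap.neg_apply] at h1
      linarith
    have hsub : (half A e) ∪ ((half A e).image (fun a => -a)) ⊆ A := by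
      intro a ha
      rcases Finset.mem_union.mp ha with h | h
      · exact (mem_half.mp h).1
      · obtain ⟨b, hb, rfl⟩ := Finset.mem_image.mp h
        exact hA.symm b (mem_half.mp hb).1
    have := Finset.card_le_card hsub
    rw [Finset.card_union_of_disjoint hdisj, Finset.card_image_of_injective _ hinj] at this
    omega
  obtain ⟨T, hT1, hT2, hT3⟩ := exists_cells (cgraph A e) hfew (by
    rw [Fintype.card_coe]; exact hcard3)
  rw [Fintype.card_coe] at hT3
  have hz : ∀ t ∈ T, ∃ z : E 3, z ∈ Qset A ∧ (∀ a ∈ t, |a.1 z| = 1) ∧ t.Nonempty := by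
    intro t ht
    rcases hT1 t ht with ⟨a, rfl⟩ | ⟨a, b, hab, rfl⟩
    · obtain ⟨z, hz1, hz2⟩ := hA.inner a.1 (mem_half.mp a.2).1
      refine ⟨z, Irr.point_mem hz1 hz2, ?_, ⟨a, by simp⟩⟩
      intro a' ha'
      rw [Finset.mem_singleton] at ha'
      rw [ha', hz1, abs_one]
    · obtain ⟨_, z, hz1, hz2, hz3⟩ := hab
      refine ⟨z, hz1, ?_, ⟨a, by simp⟩⟩
      intro a' ha'
      rw [Finset.mem_insert, Finset.mem_singleton] at ha'
      rcases ha' with rfl | rfl
      · exact hz2
      · exact hz3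
  choose! z hz1 hz2 hz3 using hz
  have hneg : ∀ x ∈ Qset A, -x ∈ Qset A := by
    intro x hx a ha
    have := hx (-a) (hA.symm a ha)
    simpa using this
  have hrep := repNumber_le (A := A) (T.image z ∪ T.image (fun t => -z t)) (by
    intro x hx
    have hcase : ∃ t ∈ T, x = z t ∨ x = -z t := by
      rcases Finset.mem_union.mp hx with h | h
      · obtain ⟨t, ht, rfl⟩ := Finset.mem_image.mp h
        exact ⟨t, ht, Or.inl rfl⟩
      · obtain ⟨t, ht, rfl⟩ := Finset.mem_image.mp h
        exact ⟨t, ht, Or.inr rfl⟩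
    obtain ⟨t, ht, hxt⟩ := hcase
    obtain ⟨a, hat⟩ := hz3 t ht
    have haA := (mem_half.mp a.2).1
    have habs := hz2 t ht a hat
    constructor
    · rcases hxt with rfl | rfl
      · exact hz1 t ht
      · exact hneg _ (hz1 t ht)
    · have h1 : |a.1 x| = 1 := by
        rcases hxt with rfl | rfl
        · exact habs
        · rw [map_neg, abs_neg]; exact habs
      rcases eq_or_eq_neg_of_abs_eq h1 with h | h
      · exact ⟨a.1, haA, h⟩
      · exact ⟨-a.1, hA.symm _ haA, by rw [LinearMap.neg_apply, h, neg_neg]⟩) (by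
    intro a ha
    have hcase : ∃ a' : half A e, ∀ x, |a x| = |a'.1 x| := by
      by_cases h : 0 < a e
      · exact ⟨⟨a, mem_half.mpr ⟨ha, h⟩⟩, fun x => rfl⟩
      · have h1 := lt_of_le_of_ne (not_lt.mp h) (he a ha)
        exact ⟨⟨-a, mem_half.mpr ⟨hA.symm a ha, by rw [LinearMap.neg_apply]; linarith⟩⟩,
          fun x => by simp⟩
    obtain ⟨a', ha'⟩ := hcase
    obtain ⟨t, ht, hat⟩ := hT2 a'
    have h1 : |a (z t)| = 1 := by rw [ha']; exact hz2 t ht a' hat
    rcases eq_or_eq_neg_of_abs_eq h1 with h | h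
    · exact ⟨z t, Finset.mem_union_left _ (Finset.mem_image_of_mem _ ht), h⟩
    · refine ⟨-z t, Finset.mem_union_right _ (Finset.mem_image_of_mem _ ht), ?_⟩
      rw [map_neg, h, neg_neg])
  have hc1 := Finset.card_union_le (T.image z) (T.image (fun t => -z t))
  have hc2 := Finset.card_image_le (s := T) (f := z)
  have hc3 := Finset.card_image_le (s := T) (f := fun t => -z t)
  omega

end FacetRep
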