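import Pool.Agent.V11151.FR.Fin3

set_option autoImplicit false
set_option linter.unusedSectionVars false
set_option linter.unusedSimpArgs false

namespace FacetRep

open Module

section

variable {V : Type*} [NormedAddCommGroup V] [NormedSpace ℝ V] [FiniteDimensional ℝ V]

lemma touch2 (h2 : finrank ℝ V = 2) {A : Finset (V →ₗ[ℝ] ℝ)} (hA : Irr A) {a b : V →ₗ[ℝ] ℝ}
    (ha : a ∈ A) (hb : b ∈ A) (hli : LinearIndependent ℝ ![a, b])
    (hcomb : ∀ c ∈ A, ∀ α β : ℝ, 0 ≤ α → 0 ≤ β → c = α • a + β • b → c = a ∨ c = b) :
    ∃ y, y ∈ Qset A ∧ a y = 1 ∧ b y = 1 := by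
  classical
  have htop := hli.span_eq_top_of_card_eq_finrank' (by
    rw [Fintype.card_fin]
    have : finrank ℝ (V →ₗ[ℝ] ℝ) = finrank ℝ V := Subspace.dual_finrank_eq
    rw [this, h2])
  have hker : Function.Injective (LinearMap.pi ![a, b]) := by
    rw [← LinearMap.ker_eq_bot, LinearMap.ker_eq_bot']
    intro x hx
    apply eq_zero_of_forall_dual
    intro f
    refine killed_of_span (T := Set.range ![a, b]) ?_ f (by rw [htop]; trivial)
    rintro g ⟨i, rfl⟩
    exact congrFun hx i
  have hsurj := (LinearMap.injective_iff_surjective_of_finrank_eq_finrank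
    (f := LinearMap.pi ![a, b]) (by simp [h2])).mp hker
  obtain ⟨y, hy⟩ := hsurj (fun _ => 1)
  have hay : a y = 1 := congrFun hy 0
  have hby : b y = 1 := congrFun hy 1
  have hne : b ≠ a := by
    intro h
    rw [h] at hli
    have := hli.injective.ne (show (0 : Fin 2) ≠ 1 by decide)
    exact this rfl
  refine ⟨y, ?_, hay, hby⟩
  intro c hc
  have hmem : c ∈ Submodule.span ℝ (Set.range ![a, b]) := by rw [htop]; trivial
  have hr : Set.range ![a, b] = {a, b} := by
    simp only [Matrix.range_cons, Matrix.range_empty, Set.union_empty]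
    rfl
  rw [hr, Submodule.mem_span_pair] at hmem
  obtain ⟨α, β, hαβ⟩ := hmem
  have hcv : ∀ x, c x = α * a x + β * b x := by
    intro x
    rw [← hαβ]; simp
  rw [hcv, hay, hby]
  by_cases hα : 0 ≤ α
  · by_cases hβ : 0 ≤ β
    · rcases hcomb c hc α β hα hβ hαβ.symm with h | h
      · have := hcv y
        rw [h, hay, hby] at this
        linarith
      · have := hcv y
        rw [h, hay, hby] at this
        linarith
    · push Not at hβ
      by_cases hca : c = a
      · have := hcv y
        rw [hca, hay, hby] at this
        linarith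
      obtain ⟨z, hz1, hz2⟩ := hA.inner a ha
      have h1 := hz2 c hc hca
      have h3 := hz2 b hb hne
      rw [hcv, hz1] at h1
      nlinarith
  · push Not at hα
    by_cases hβ : 0 ≤ β
    · by_cases hcb : c = b
      · have := hcv y
        rw [hcb, hay, hby] at this
        linarith
      obtain ⟨z, hz1, hz2⟩ := hA.inner b hb
      have h1 := hz2 c hc hcb
      have h3 := hz2 a ha hne.symm
      rw [hcv, hz1] at h1
      nlinarith
    · push Not at hβ
      linarith

end

theorem upper_two {P : Set (E 2)} (hP : IsCSPolytope P) :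
    2 * repNumber P ≤ numFacets P := by
  classical
  obtain ⟨A, hA, rfl⟩ := exists_irr hP
  rw [numFacets_eq (by norm_num) hA]
  obtain ⟨e, he⟩ := hA.exists_e
  have hE2 := finrank_E 2
  have hspan : ∀ w, (∀ a ∈ half A e, a w = 0) → w = 0 := by
    intro w hw
    apply hA.spans
    intro a ha
    by_cases h : 0 < a e
    · exact hw a (mem_half.mpr ⟨ha, h⟩)
    · have h1 := lt_of_le_of_ne (not_lt.mp h) (he a ha)
      have := hw (-a) (mem_half.mpr ⟨hA.symm a ha, by rw [LinearMap.neg_apply]; linarith⟩)
      rw [LinearMap.neg_apply] at this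
      linarith
  have hcard2 : 2 ≤ (half A e).card := by
    have h1 := span_eq_top_of_spanning hspan
    have h2 := finrank_span_finset_le_card (R := ℝ) (half A e)
    unfold Set.finrank at h2
    rw [h1, finrank_top] at h2
    have : finrank ℝ (E 2 →ₗ[ℝ] ℝ) = finrank ℝ (E 2) := Subspace.dual_finrank_eq
    rw [this, finrank_E] at h2
    exact h2
  have hdouble : 2 * (half A e).card ≤ A.card := by
    have hinj : Function.Injective (fun a : E 2 →ₗ[ℝ] ℝ => -a) := neg_injective
    have hdisj : Disjoint (half A e) ((half A e).image (fun a => -a)) := by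
      rw [Finset.disjoint_left]
      intro a ha ha'
      obtain ⟨b, hb, rfl⟩ := Finset.mem_image.mp ha'
      have h1 := (mem_half.mp ha).2
      have h2 := (mem_half.mp hb).2
      rw [LinearMap.neg_apply] at h1
      linarith
    have hsub : (half A e) ∪ ((half A e).image (fun a => -a)) ⊆ A := by
      intro a ha
      rcases Finset.mem_union.mp ha with h | h
      · exact (mem_half.mp h).1
      · obtain ⟨b, hb, rfl⟩ := Finset.mem_image.mp h
        exact hA.symm b (mem_half.mp hb).1
    have := Finset.card_le_card hsub
    rw [Finset.card_union_of_disjoint hdisj, Finset.card_image_of_injective _ hinj] at this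
    omega
  -- a complementary vector
  have he0 : e ≠ 0 := by
    rintro rfl
    obtain ⟨a, ha⟩ : (half A (0 : E 2)).Nonempty := Finset.card_pos.mp (by omega)
    have := (mem_half.mp ha).2
    simp at this
  obtain ⟨f, hf⟩ : ∃ f : E 2, f ∉ Submodule.span ℝ {e} := by
    by_contra hcon
    push Not at hcon
    have htop : Submodule.span ℝ {e} = ⊤ := top_unique (fun x _ => hcon x)
    have h1 := finrank_span_singleton (K := ℝ) he0
    rw [htop, finrank_top, hE2] at h1
    norm_num at h1
  have hbasis : ∀ g h : E 2 →ₗ[ℝ] ℝ, g e = h e → g f = h f → g = h := by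
    intro g h h1 h2
    have hli : LinearIndependent ℝ ![e, f] := by
      rw [LinearIndependent.pair_iff' he0]
      intro t ht
      exact hf (Submodule.mem_span_singleton.mpr ⟨t, ht⟩)
    have htop := hli.span_eq_top_of_card_eq_finrank' (by simp)
    apply LinearMap.ext
    intro x
    have hx : x ∈ Submodule.span ℝ (Set.range ![e, f]) := by rw [htop]; trivial
    induction hx using Submodule.span_induction with
    | mem x hx =>
      obtain ⟨i, rfl⟩ := hx
      fin_cases i
      · exact h1
      · exact h2
    | zero => simp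
    | add x y _ _ hx hy => rw [map_add, map_add, hx, hy]
    | smul t x _ hx => rw [map_smul, map_smul, hx]
  let sl : (E 2 →ₗ[ℝ] ℝ) → ℝ := fun a => a f / a e
  have hslmul : ∀ a : E 2 →ₗ[ℝ] ℝ, 0 < a e → a f = sl a * a e := by
    intro a ha
    simp only [sl]
    field_simp
  have hslinj : ∀ a ∈ half A e, ∀ b ∈ half A e, sl a = sl b → a = b := by
    intro a ha b hb hab
    have ha' := mem_half.mp ha
    have hb' := mem_half.mp hb
    have h1 := hslmul a ha'.2
    have h2 := hslmul b hb'.2
    have hμ : a = (a e / b e) • b := by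
      apply hbasis
      · rw [LinearMap.smul_apply, smul_eq_mul, div_mul_cancel₀ _ hb'.2.ne']
      · rw [LinearMap.smul_apply, smul_eq_mul, h1, h2, hab]
        have := hb'.2.ne'
        field_simp
    by_contra hne
    obtain ⟨p, hp1, hp2⟩ := hA.inner a ha'.1
    obtain ⟨q, hq1, hq2⟩ := hA.inner b hb'.1
    have t1 := hp2 b hb'.1 (Ne.symm hne)
    have t2 := hq2 a ha'.1 hne
    have e1 : a p = a e / b e * b p := by
      conv_lhs => rw [hμ]
      simp
    have e2 : a q = a e / b e * b q := by
      conv_lhs => rw [hμ]
      simp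
    rw [hp1] at e1
    rw [hq1, mul_one] at e2
    rw [e2] at t2
    have hpos : 0 < a e / b e := div_pos ha'.2 hb'.2
    nlinarith
  -- sorted enumeration
  set n := (half A e).card with hn
  have hcardS : ((half A e).image sl).card = n := by
    rw [Finset.card_image_of_injOn]
    intro a ha b hb hab
    exact hslinj a ha b hb hab
  set emb := ((half A e).image sl).orderEmbOfFin hcardS with hemb
  have hmemS : ∀ i : Fin n, ∃ a ∈ half A e, sl a = emb i := by
    intro i
    have := Finset.orderEmbOfFin_mem ((half A e).image sl) hcardS i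
    obtain ⟨a, ha, hai⟩ := Finset.mem_image.mp this
    exact ⟨a, ha, hai⟩
  choose a0 ha0 hsl0 using hmemS
  have hall : ∀ b ∈ half A e, ∃ i, a0 i = b := by
    intro b hb
    have h1 : sl b ∈ Set.range emb := by
      rw [hemb, Finset.range_orderEmbOfFin]
      exact Finset.mem_coe.mpr (Finset.mem_image_of_mem _ hb)
    obtain ⟨i, hi⟩ := h1
    exact ⟨i, hslinj _ (ha0 i) _ hb (by rw [hsl0, hi])⟩
  let g : ℕ → (E 2 →ₗ[ℝ] ℝ) := fun i =>
    if h : i < n then a0 ⟨i, h⟩ else if h' : i - n < n then -a0 ⟨i - n, h'⟩ else 0
  have hposi : ∀ i, 0 < a0 i e := fun i => (mem_half.mp (ha0 i)).2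
  have hAi : ∀ i, a0 i ∈ A := fun i => (mem_half.mp (ha0 i)).1
  have hneg : ∀ x ∈ Qset A, -x ∈ Qset A := by
    intro x hx a ha
    have := hx (-a) (hA.symm a ha)
    simpa using this
  have hfi : ∀ i, a0 i f = emb i * a0 i e := by
    intro i
    rw [hslmul _ (hposi i), hsl0]
  -- consecutive facets touch
  have hcons : ∀ i : ℕ, ∀ h : i + 1 < n, ∃ y, y ∈ Qset A ∧ a0 ⟨i, by omega⟩ y = 1 ∧
      a0 ⟨i + 1, h⟩ y = 1 := by
    intro i h
    set i1 : Fin n := ⟨i, by omega⟩ with hi1
    set i2 : Fin n := ⟨i + 1, h⟩ with hi2
    have hlt : emb i1 < emb i2 := by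
      rw [OrderEmbedding.lt_iff_lt, Fin.lt_def]
      simp [hi1, hi2]
    apply touch2 hE2 hA (hAi _) (hAi _)
    · have hne0 : a0 i1 ≠ 0 := hA.ne_zero _ (hAi _)
      rw [LinearIndependent.pair_iff' hne0]
      intro t ht
      have h1 := hfi i2
      rw [← ht, LinearMap.smul_apply, LinearMap.smul_apply, smul_eq_mul, smul_eq_mul, hfi i1] at h1
      have h3 := hposi i2
      rw [← ht, LinearMap.smul_apply, smul_eq_mul] at h3
      nlinarith
    · intro c hc α β hα hβ hcc
      have hce : c e = α * a0 i1 e + β * a0 i2 e := by rw [hcc]; simp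
      have hcf : c f = α * a0 i1 f + β * a0 i2 f := by rw [hcc]; simp
      have hp1 := hposi i1
      have hp2 := hposi i2
      have hcpos : 0 < c e := by
        have h1 : 0 ≤ c e := by rw [hce]; positivity
        exact lt_of_le_of_ne h1 (Ne.symm (he c hc))
      obtain ⟨j, hj⟩ := hall c (mem_half.mpr ⟨hc, hcpos⟩)
      have hcj := hfi j
      rw [hj] at hcj
      rw [hfi, hfi] at hcf
      have l1 : emb i1 ≤ emb j := by
        by_contra hcon
        push Not at hcon
        have : emb j * c e < emb i1 * c e := mul_lt_mul_of_pos_right hcon hcpos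
        rw [← hcj, hcf, hce] at this
        have h5 : β * a0 i2 e * (emb i2 - emb i1) < 0 := by nlinarith
        have h6 : 0 ≤ β * a0 i2 e * (emb i2 - emb i1) := by
          apply mul_nonneg (by positivity) (by linarith)
        linarith
      have l2 : emb j ≤ emb i2 := by
        by_contra hcon
        push Not at hcon
        have : emb i2 * c e < emb j * c e := mul_lt_mul_of_pos_right hcon hcpos
        rw [← hcj, hcf, hce] at this
        have h5 : α * a0 i1 e * (emb i2 - emb i1) < 0 := by nlinarith
        have h6 : 0 ≤ α * a0 i1 e * (emb i2 - emb i1) := by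
          apply mul_nonneg (by positivity) (by linarith)
        linarith
      rw [OrderEmbedding.le_iff_le, Fin.le_def] at l1 l2
      simp only [hi1, hi2] at l1 l2
      have hj' : j = i1 ∨ j = i2 := by
        simp only [hi1, hi2, Fin.ext_iff]
        omega
      rcases hj' with h | h
      · left; rw [← hj, h]
      · right; rw [← hj, h]
  have hlast : ∃ y, y ∈ Qset A ∧ a0 ⟨n - 1, by omega⟩ y = 1 ∧ (-a0 ⟨0, by omega⟩) y = 1 := by
    set i1 : Fin n := ⟨0, by omega⟩ with hi1
    set i2 : Fin n := ⟨n - 1, by omega⟩ with hi2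
    have hlt : emb i1 < emb i2 := by
      rw [OrderEmbedding.lt_iff_lt, Fin.lt_def]
      simp only [hi1, hi2]
      omega
    apply touch2 hE2 hA (hAi _) (hA.symm _ (hAi _))
    · have hne0 : a0 i2 ≠ 0 := hA.ne_zero _ (hAi _)
      rw [LinearIndependent.pair_iff' hne0]
      intro t ht
      have h1 := hfi i1
      have ht' : ∀ x, a0 i1 x = -(t * a0 i2 x) := by
        intro x
        have := congrArg (fun g : E 2 →ₗ[ℝ] ℝ => g x) ht
        simp only [LinearMap.smul_apply, LinearMap.neg_apply, smul_eq_mul] at this
        linarith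
      rw [ht', ht', hfi i2] at h1
      have h3 := hposi i1
      rw [ht'] at h3
      nlinarith
    · intro c hc α β hα hβ hcc
      have hce : c e = α * a0 i2 e - β * a0 i1 e := by rw [hcc]; simp; ring
      have hcf : c f = α * a0 i2 f - β * a0 i1 f := by rw [hcc]; simp; ring
      have hp1 := hposi i1
      have hp2 := hposi i2
      rw [hfi, hfi] at hcf
      rcases lt_or_gt_of_ne (he c hc) with hneg' | hcpos
      · obtain ⟨j, hj⟩ := hall (-c) (mem_half.mpr ⟨hA.symm c hc, by rw [LinearMap.neg_apply]; linarith⟩)
        have hcj := hfi j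
        rw [hj, LinearMap.neg_apply, LinearMap.neg_apply] at hcj
        right
        have l1 : emb j ≤ emb i1 := by
          by_contra hcon
          push Not at hcon
          have hcn : 0 < - c e := by linarith
          have : emb i1 * (- c e) < emb j * (- c e) := mul_lt_mul_of_pos_right hcon hcn
          rw [← hcj, hcf, hce] at this
          have h5 : α * a0 i2 e * (emb i2 - emb i1) < 0 := by nlinarith
          have h6 : 0 ≤ α * a0 i2 e * (emb i2 - emb i1) := by
            apply mul_nonneg (by positivity) (by linarith)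
          linarith
        rw [OrderEmbedding.le_iff_le, Fin.le_def] at l1
        simp only [hi1] at l1
        have hj' : j = i1 := by
          simp only [hi1, Fin.ext_iff]
          omega
        rw [← hj', hj, neg_neg]
      · obtain ⟨j, hj⟩ := hall c (mem_half.mpr ⟨hc, hcpos⟩)
        have hcj := hfi j
        rw [hj] at hcj
        left
        have l1 : emb i2 ≤ emb j := by
          by_contra hcon
          push Not at hcon
          have : emb j * c e < emb i2 * c e := mul_lt_mul_of_pos_right hcon hcpos
          rw [← hcj, hcf, hce] at this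
          have h5 : β * a0 i1 e * (emb i2 - emb i1) < 0 := by nlinarith
          have h6 : 0 ≤ β * a0 i1 e * (emb i2 - emb i1) := by
            apply mul_nonneg (by positivity) (by linarith)
          linarith
        rw [OrderEmbedding.le_iff_le, Fin.le_def] at l1
        simp only [hi2] at l1
        have hj' : j = i2 := by
          simp only [hi2, Fin.ext_iff]
          omega
        rw [← hj', hj]
  have htouch : ∀ k : ℕ, k < n → ∃ y, y ∈ Qset A ∧ g (2 * k) y = 1 ∧ g (2 * k + 1) y = 1 := by
    intro k hk
    by_cases h1 : 2 * k + 1 < n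
    · obtain ⟨y, hy, hy1, hy2⟩ := hcons (2 * k) h1
      refine ⟨y, hy, ?_, ?_⟩
      · simp only [g, dif_pos (show 2 * k < n by omega)]
        exact hy1
      · simp only [g, dif_pos h1]
        exact hy2
    · by_cases h2 : 2 * k + 1 = n
      · obtain ⟨y, hy, hy1, hy2⟩ := hlast
        refine ⟨y, hy, ?_, ?_⟩
        · simp only [g, dif_pos (show 2 * k < n by omega)]
          have : (⟨2 * k, by omega⟩ : Fin n) = ⟨n - 1, by omega⟩ := by
            rw [Fin.ext_iff]; simp only; omega
          rw [this]; exact hy1
        · simp only [g, dif_neg (show ¬ (2 * k + 1 < n) by omega),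
            dif_pos (show 2 * k + 1 - n < n by omega)]
          have : (⟨2 * k + 1 - n, by omega⟩ : Fin n) = ⟨0, by omega⟩ := by
            rw [Fin.ext_iff]; simp only; omega
          rw [this]; exact hy2
      · obtain ⟨y, hy, hy1, hy2⟩ := hcons (2 * k - n) (by omega)
        refine ⟨-y, hneg y hy, ?_, ?_⟩
        · simp only [g, dif_neg (show ¬ (2 * k < n) by omega),
            dif_pos (show 2 * k - n < n by omega)]
          rw [LinearMap.neg_apply, map_neg, neg_neg]
          exact hy1
        · simp only [g, dif_neg (show ¬ (2 * k + 1 < n) by omega),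
            dif_pos (show 2 * k + 1 - n < n by omega)]
          have : (⟨2 * k + 1 - n, by omega⟩ : Fin n) = ⟨2 * k - n + 1, by omega⟩ := by
            rw [Fin.ext_iff]; simp only; omega
          rw [this, LinearMap.neg_apply, map_neg, neg_neg]
          exact hy2
  have hgall : ∀ a ∈ A, ∃ i, i < 2 * n ∧ g i = a := by
    intro a ha
    by_cases h : 0 < a e
    · obtain ⟨i, hi⟩ := hall a (mem_half.mpr ⟨ha, h⟩)
      refine ⟨i.val, by omega, ?_⟩
      simp only [g, dif_pos i.isLt]
      exact hi
    · have h1 := lt_of_le_of_ne (not_lt.mp h) (he a ha)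
      obtain ⟨i, hi⟩ := hall (-a) (mem_half.mpr ⟨hA.symm a ha, by rw [LinearMap.neg_apply]; linarith⟩)
      refine ⟨i.val + n, by omega, ?_⟩
      have : (⟨i.val + n - n, by omega⟩ : Fin n) = i := by
        rw [Fin.ext_iff]; simp
      simp only [g, dif_neg (show ¬ (i.val + n < n) by omega),
        dif_pos (show i.val + n - n < n by omega)]
      rw [this, hi, neg_neg]
  have hgA : ∀ i, i < 2 * n → g i ∈ A := by
    intro i hi
    simp only [g]
    split_ifs with h1 h2
    · exact hAi _
    · exact hA.symm _ (hAi _)
    · omega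
  choose! z hz1 hz2 hz3 using htouch
  have hrep := repNumber_le (A := A) ((Finset.range n).image z) (by
    intro x hx
    obtain ⟨k, hk, rfl⟩ := Finset.mem_image.mp hx
    rw [Finset.mem_range] at hk
    exact ⟨hz1 k hk, g (2 * k), hgA _ (by omega), hz2 k hk⟩) (by
    intro a ha
    obtain ⟨i, hi, hgi⟩ := hgall a ha
    refine ⟨z (i / 2), Finset.mem_image_of_mem _ (Finset.mem_range.mpr (by omega)), ?_⟩
    rcases Nat.even_or_odd' i with ⟨k, hk | hk⟩
    · have : i / 2 = k := by omega
      rw [this, ← hgi, hk]
      exact hz2 k (by omega)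
    · have : i / 2 = k := by omega
      rw [this, ← hgi, hk]
      exact hz3 k (by omega))
  have hc1 := Finset.card_image_le (s := Finset.range n) (f := z)
  rw [Finset.card_range] at hc1
  omega

theorem L_two : L 2 = 1 / 2 := by
  classical
  let A : Finset (E 2 →ₗ[ℝ] ℝ) := {coord 0, -coord 0, coord 1, -coord 1}
  have hsymm : ∀ a ∈ A, -a ∈ A := by
    intro a ha
    simp only [A, Finset.mem_insert, Finset.mem_singleton] at ha ⊢
    rcases ha with rfl | rfl | rfl | rfl
    · right; left; rfl
    · left; rw [neg_neg]
    · right; right; right; rfl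
    · right; right; left; rw [neg_neg]
  have hspan : ∀ w : E 2, (∀ a ∈ A, a w = 0) → w = 0 := by
    intro w hw
    have h0 := hw (coord 0) (by simp [A])
    have h1 := hw (coord 1) (by simp [A])
    ext i
    fin_cases i
    · exact h0
    · exact h1
  have hP := isCSPolytope_Qset hsymm hspan
  let J : Finset (E 2 →ₗ[ℝ] ℝ) := {coord 0, -coord 0}
  have hne : (coord 0 : E 2 →ₗ[ℝ] ℝ) ≠ -coord 0 := by
    intro h
    have := congrArg (fun f : E 2 →ₗ[ℝ] ℝ => f (EuclideanSpace.single 0 1)) h
    simp [PiLp.single_apply] at this
    linarith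
  have hlow : J.card ≤ repNumber (Qset A) := by
    apply lower_lemma (by norm_num) A J
    · intro j hj
      simp only [J, A, Finset.mem_insert, Finset.mem_singleton] at hj ⊢
      rcases hj with rfl | rfl
      · left; rfl
      · right; left; rfl
    · intro j hj
      simp only [J, Finset.mem_insert, Finset.mem_singleton] at hj
      rcases hj with rfl | rfl
      · refine ⟨EuclideanSpace.single 0 1, by simp [PiLp.single_apply], ?_⟩
        intro b hb hne
        simp only [A, Finset.mem_insert, Finset.mem_singleton] at hb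
        rcases hb with rfl | rfl | rfl | rfl
        · exact absurd rfl hne
        · simp [PiLp.single_apply]; try norm_num
        · simp [PiLp.single_apply]
        · simp [PiLp.single_apply]
      · refine ⟨EuclideanSpace.single 0 (-1), by simp [PiLp.single_apply], ?_⟩
        intro b hb hne
        simp only [A, Finset.mem_insert, Finset.mem_singleton] at hb
        rcases hb with rfl | rfl | rfl | rfl
        · simp [PiLp.single_apply]; try norm_num
        · exact absurd rfl hne
        · simp [PiLp.single_apply]
        · simp [PiLp.single_apply]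
    · intro j hj j' hj' hjj x _ h1 h2
      simp only [J, Finset.mem_insert, Finset.mem_singleton] at hj hj'
      rcases hj with rfl | rfl <;> rcases hj' with rfl | rfl
      · exact hjj rfl
      · rw [LinearMap.neg_apply, h1] at h2; norm_num at h2
      · rw [LinearMap.neg_apply, h2] at h1; norm_num at h1
      · exact hjj rfl
  have hnum := numFacets_le A
  have hA : A.card ≤ 4 := Finset.card_le_four
  have hJ : J.card = 2 := Finset.card_pair hne
  rw [hJ] at hlow
  apply L_eq_of
  · exact ⟨_, Qset A, hP, rfl⟩
  · rintro r ⟨P, hP, rfl⟩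
    have h := upper_two hP
    have h' : 2 * (repNumber P : ℝ) ≤ (numFacets P : ℝ) := by exact_mod_cast h
    rcases Nat.eq_zero_or_pos (numFacets P) with h0 | hpos
    · rw [h0]; simp
    · have hpos' : (0 : ℝ) < (numFacets P : ℝ) := by exact_mod_cast hpos
      rw [div_le_div_iff₀ hpos' (by norm_num)]
      linarith
  · intro u hu
    obtain ⟨hu0, h3⟩ := ratio_lower (a := 2) (c := 2) (by norm_num) hP (by norm_num) hlow
      (by omega) hu
    push_cast at h3
    linarith

end FacetRep
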