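import Pool.Agent.V11151.FR.Geo

set_option autoImplicit false
set_option linter.unusedSectionVars false

namespace FacetRep

open Module

variable {V : Type*} [NormedAddCommGroup V] [NormedSpace ℝ V] [FiniteDimensional ℝ V]

/-- the region cut out by `j y ≤ 1` for `j ∈ S` -/
def Qset (S : Finset (V →ₗ[ℝ] ℝ)) : Set V := {y | ∀ j ∈ S, j y ≤ 1}

lemma zero_mem_Qset (S : Finset (V →ₗ[ℝ] ℝ)) : (0 : V) ∈ Qset S := by
  intro j _; simp

lemma Qset_closed (S : Finset (V →ₗ[ℝ] ℝ)) : IsClosed (Qset S) := by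
  have : Qset S = ⋂ j ∈ S, {y | j y ≤ 1} := by
    ext y; simp [Qset]
  rw [this]
  apply isClosed_biInter
  intro j _
  exact isClosed_le (LinearMap.continuous_of_finiteDimensional j) continuous_const

lemma Qset_compact (S : Finset (V →ₗ[ℝ] ℝ)) (hsymm : ∀ j ∈ S, -j ∈ S)
    (hspan : ∀ w, (∀ j ∈ S, j w = 0) → w = 0) : IsCompact (Qset S) := by
  classical
  apply Metric.isCompact_of_isClosed_isBounded (Qset_closed S)
  let L : V →ₗ[ℝ] (S → ℝ) := LinearMap.pi (fun j : S => (j : V →ₗ[ℝ] ℝ))
  have hker : LinearMap.ker L = ⊥ := by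
    rw [LinearMap.ker_eq_bot']
    intro w hw
    apply hspan
    intro j hj
    exact congrFun hw ⟨j, hj⟩
  obtain ⟨K, _, hK⟩ := LinearMap.exists_antilipschitzWith L hker
  have hb := hK.isBounded_preimage (Metric.isBounded_closedBall (x := (0 : S → ℝ)) (r := 1))
  refine hb.subset ?_
  intro y hy
  simp only [Set.mem_preimage, mem_closedBall_zero_iff]
  rw [pi_norm_le_iff_of_nonneg zero_le_one]
  intro j
  rw [Real.norm_eq_abs, abs_le]
  have h1 := hy j.1 j.2
  have h2 := hy (-j.1) (hsymm j.1 j.2)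
  simp only [LinearMap.neg_apply] at h2
  exact ⟨by simp only [L, LinearMap.pi_apply]; linarith, h1⟩

lemma exists_vertex (Q : Set V) (hQ : IsCompact Q) (hne : Q.Nonempty) (a : V →ₗ[ℝ] ℝ) :
    ∃ v ∈ Q.extremePoints ℝ, ∀ y ∈ Q, a y ≤ a v := by
  let aC : StrongDual ℝ V := LinearMap.toContinuousLinearMap a
  have haC : ∀ x, aC x = a x := fun x => rfl
  set M : Set V := {x ∈ Q | ∀ y ∈ Q, aC y ≤ aC x} with hM
  have hexp : IsExposed ℝ Q M := fun _ => ⟨aC, rfl⟩
  have hMne : M.Nonempty := by
    obtain ⟨x, hx, hmax⟩ := hQ.exists_isMaxOn hne (f := a)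
      (LinearMap.continuous_of_finiteDimensional a).continuousOn
    exact ⟨x, hx, fun y hy => hmax hy⟩
  have hMc : IsCompact M := hexp.isCompact hQ
  obtain ⟨v, hv⟩ := hMc.extremePoints_nonempty hMne
  refine ⟨v, hexp.isExtreme.extremePoints_subset_extremePoints hv, ?_⟩
  have := (extremePoints_subset hv)
  exact this.2

lemma exists_move (S : Finset (V →ₗ[ℝ] ℝ)) (v : V) (hv : v ∈ Qset S) (w : V)
    (hw : ∀ j ∈ S, j v = 1 → j w ≤ 0) : ∃ ε : ℝ, 0 < ε ∧ v + ε • w ∈ Qset S := by
  classical
  obtain ⟨ε, hε, h⟩ := eps_exists (S.filter (fun j => j v ≠ 1)) (fun j => 1 - j v) (fun j => j w)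
    (by
      intro j hj
      rw [Finset.mem_filter] at hj
      have := lt_of_le_of_ne (hv j hj.1) hj.2
      linarith)
  refine ⟨ε, hε, ?_⟩
  intro j hj
  rw [map_add, map_smul, smul_eq_mul]
  by_cases h1 : j v = 1
  · have := hw j hj h1
    nlinarith
  · have := h j (Finset.mem_filter.mpr ⟨hj, h1⟩)
    linarith

lemma tight_spanning (S : Finset (V →ₗ[ℝ] ℝ)) (v : V) (hv : v ∈ (Qset S).extremePoints ℝ) :
    ∀ w, (∀ j ∈ S.filter (fun j => j v = 1), j w = 0) → w = 0 := by
  classical
  intro w hw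
  have hvQ := extremePoints_subset hv
  obtain ⟨ε, hε, h⟩ := eps_exists (S.filter (fun j => j v ≠ 1)) (fun j => 1 - j v) (fun j => |j w|)
    (by
      intro j hj
      rw [Finset.mem_filter] at hj
      have := lt_of_le_of_ne (hvQ j hj.1) hj.2
      linarith)
  have hmem : ∀ δ : ℝ, |δ| ≤ ε → v + δ • w ∈ Qset S := by
    intro δ hδ j hj
    rw [map_add, map_smul, smul_eq_mul]
    by_cases h1 : j v = 1
    · rw [hw j (Finset.mem_filter.mpr ⟨hj, h1⟩), h1]; simp
    · have h2 := h j (Finset.mem_filter.mpr ⟨hj, h1⟩)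
      have h3 : δ * j w ≤ ε * |j w| := by
        calc δ * j w ≤ |δ * j w| := le_abs_self _
          _ = |δ| * |j w| := abs_mul _ _
          _ ≤ ε * |j w| := mul_le_mul_of_nonneg_right hδ (abs_nonneg _)
      linarith
  have h1 := hmem ε (by rw [abs_of_pos hε])
  have h2 := hmem (-ε) (by rw [abs_neg, abs_of_pos hε])
  have h3 : v ∈ openSegment ℝ (v + ε • w) (v + (-ε) • w) := by
    refine ⟨1/2, 1/2, by norm_num, by norm_num, by norm_num, ?_⟩
    module
  have h4 := hv.2 h1 h2 h3
  have h5 : ε • w = 0 := by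
    have : v + ε • w = v + 0 := by rw [add_zero]; exact h4
    exact add_left_cancel this
  rcases smul_eq_zero.mp h5 with h | h
  · exact absurd h hε.ne'
  · exact h

theorem exists_Y (h3 : finrank ℝ V = 3) (S : Finset (V →ₗ[ℝ] ℝ)) (hsymm : ∀ j ∈ S, -j ∈ S)
    (hspan : ∀ w, (∀ j ∈ S, j w = 0) → w = 0) :
    ∃ Y : Finset V, Y.card + 2 ≤ S.card ∧ (∀ y ∈ Y, ∀ j ∈ S, j y ≤ 1) ∧
      ∀ a : V →ₗ[ℝ] ℝ, (∃ x, (∀ j ∈ S, j x ≤ 1) ∧ 1 < a x) → ∃ y ∈ Y, 1 < |a y| := by
  classical
  obtain ⟨c, hc⟩ := exists_generic S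
  have hcomp := Qset_compact S hsymm hspan
  have hcj : ∀ j : V →ₗ[ℝ] ℝ, ∃ y, y ∈ Qset S ∧ ((∃ x ∈ Qset S, j x = 1) →
      j y = 1 ∧ ∀ x ∈ Qset S, j x = 1 → c x ≤ c y) := by
    intro j
    by_cases hne : ∃ x ∈ Qset S, j x = 1
    · have hcl : IsClosed {x : V | j x = 1} :=
        isClosed_eq (LinearMap.continuous_of_finiteDimensional j) continuous_const
      have hcomp2 : IsCompact (Qset S ∩ {x : V | j x = 1}) := hcomp.inter_right hcl
      obtain ⟨x0, hx0, hx1⟩ := hne
      obtain ⟨y, hy, hmax⟩ := hcomp2.exists_isMaxOn ⟨x0, hx0, hx1⟩ (f := c)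
        (LinearMap.continuous_of_finiteDimensional c).continuousOn
      exact ⟨y, hy.1, fun _ => ⟨hy.2, fun x hx hjx => hmax ⟨hx, hjx⟩⟩⟩
    · exact ⟨0, zero_mem_Qset S, fun h => absurd h hne⟩
  choose yf hyf1 hyf2 using hcj
  refine ⟨S.image yf, ?_, ?_, ?_⟩
  · -- the cardinality bound
    obtain ⟨v, hv, hvmax⟩ := exists_vertex (Qset S) hcomp ⟨0, zero_mem_Qset S⟩ c
    have hvQ := extremePoints_subset hv
    have hsp := tight_spanning S v hv
    set J := S.filter (fun j => j v = 1) with hJ
    have hJcard : 3 ≤ J.card := by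
      have h1 := span_eq_top_of_spanning hsp
      have h2 := finrank_span_finset_le_card (R := ℝ) J
      unfold Set.finrank at h2
      rw [h1, finrank_top] at h2
      have : finrank ℝ (V →ₗ[ℝ] ℝ) = finrank ℝ V := Subspace.dual_finrank_eq
      rw [this, h3] at h2
      exact h2
    have hJy : ∀ j ∈ J, yf j = v := by
      intro j hj
      rw [hJ, Finset.mem_filter] at hj
      obtain ⟨hj1, hj2⟩ := hyf2 j ⟨v, hvQ, hj.2⟩
      have h1 : c v ≤ c (yf j) := hj2 v hvQ hj.2
      have h2 : c (yf j) ≤ c v := hvmax _ (hyf1 j)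
      by_contra hne
      set u := yf j - v with hu
      have hu0 : u ≠ 0 := sub_ne_zero.mpr hne
      have hcu : c u = 0 := by rw [hu, map_sub]; linarith
      have hku : ∀ k ∈ J, k u ≤ 0 := by
        intro k hk
        rw [hJ, Finset.mem_filter] at hk
        rw [hu, map_sub, hk.2]
        have := hyf1 j k hk.1
        linarith
      -- c ≤ 0 on the tangent cone
      have hcone : ∀ w, (∀ k ∈ J, k w ≤ 0) → c w ≤ 0 := by
        intro w hw
        obtain ⟨ε, hε, hmem⟩ := exists_move S v hvQ w (by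
          intro k hk hkv
          exact hw k (Finset.mem_filter.mpr ⟨hk, hkv⟩))
        have := hvmax _ hmem
        rw [map_add, map_smul, smul_eq_mul] at this
        nlinarith
      set T := J.filter (fun k => k u = 0) with hT
      have hTS : T ⊆ S := (Finset.filter_subset _ _).trans (Finset.filter_subset _ _)
      have hTne : Submodule.span ℝ (T : Set (V →ₗ[ℝ] ℝ)) ≠ ⊤ := by
        apply span_ne_top_of_killed hu0
        intro f hf
        have := Finset.mem_coe.mp hf
        rw [hT, Finset.mem_filter] at this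
        exact this.2
      apply hc T hTS hTne
      have hvan : ∀ w, (∀ k ∈ T, k w = 0) → c w ≤ 0 := by
        intro w hw
        -- u + ε w in the cone
        obtain ⟨ε, hε, h⟩ := eps_exists (J.filter (fun k => k u ≠ 0)) (fun k => - k u)
          (fun k => k w) (by
            intro k hk
            rw [Finset.mem_filter] at hk
            have := lt_of_le_of_ne (hku k hk.1) hk.2
            linarith)
        have h3 := hcone (u + ε • w) (by
          intro k hk
          rw [map_add, map_smul, smul_eq_mul]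
          by_cases hk0 : k u = 0
          · rw [hk0, hw k (Finset.mem_filter.mpr ⟨hk, hk0⟩)]; simp
          · have := h k (Finset.mem_filter.mpr ⟨hk, hk0⟩)
            linarith)
        rw [map_add, map_smul, smul_eq_mul, hcu] at h3
        nlinarith
      have := mem_span_of_iInf_ker_le_ker (L := fun i : T => (i : V →ₗ[ℝ] ℝ)) (K := c) (by
        intro w hw
        simp only [Submodule.mem_iInf, LinearMap.mem_ker] at hw
        rw [LinearMap.mem_ker]
        have e1 := hvan w (fun k hk => hw ⟨k, hk⟩)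
        have e2 := hvan (-w) (fun k hk => by rw [map_neg, hw ⟨k, hk⟩, neg_zero])
        rw [map_neg] at e2
        linarith)
      have hr : Set.range (fun i : T => (i : V →ₗ[ℝ] ℝ)) = (T : Set (V →ₗ[ℝ] ℝ)) := by
        ext x; simp
      rw [hr] at this
      exact this
    have hJS : J ⊆ S := Finset.filter_subset _ _
    have hsub : S.image yf ⊆ insert v ((S \ J).image yf) := by
      intro y hy
      obtain ⟨j, hj, rfl⟩ := Finset.mem_image.mp hy
      by_cases hjJ : j ∈ J
      · rw [hJy j hjJ]; exact Finset.mem_insert_self _ _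
      · exact Finset.mem_insert_of_mem (Finset.mem_image_of_mem _ (Finset.mem_sdiff.mpr ⟨hj, hjJ⟩))
    have h1 := Finset.card_le_card hsub
    have h2 := Finset.card_insert_le v ((S \ J).image yf)
    have h4 := Finset.card_image_le (s := S \ J) (f := yf)
    have h5 := Finset.card_sdiff_of_subset hJS
    have h6 := Finset.card_le_card hJS
    omega
  · intro y hy
    obtain ⟨j, _, rfl⟩ := Finset.mem_image.mp hy
    exact hyf1 j
  · rintro a ⟨x, hx, hax⟩
    obtain ⟨v, hv, hvmax⟩ := exists_vertex (Qset S) hcomp ⟨0, zero_mem_Qset S⟩ a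
    have hvQ := extremePoints_subset hv
    have hav : 1 < a v := lt_of_lt_of_le hax (hvmax x hx)
    have hsp := tight_spanning S v hv
    set J := S.filter (fun j => j v = 1) with hJ
    obtain ⟨j, hj, hjj⟩ := key3 h3 S c hc J (Finset.filter_subset _ _) hsp
    have hjm := hj
    rw [hJ, Finset.mem_filter] at hj
    rcases hjj with hmax | hmin
    · -- v is the maximiser on the facet j
      refine ⟨yf j, Finset.mem_image_of_mem _ hj.1, ?_⟩
      obtain ⟨hj1, hj2⟩ := hyf2 j ⟨v, hvQ, hj.2⟩
      have hyv : yf j = v := by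
        by_contra hne
        have h1 : c v ≤ c (yf j) := hj2 v hvQ hj.2
        have h2 := hmax (yf j - v) (by
          intro k hk
          rw [hJ, Finset.mem_filter] at hk
          rw [map_sub, hk.2]
          have := hyf1 j k hk.1
          linarith) (by rw [map_sub, hj1, hj.2]; ring) (sub_ne_zero.mpr hne)
        rw [map_sub] at h2
        linarith
      rw [hyv]
      exact lt_of_lt_of_le hav (le_abs_self _)
    · refine ⟨yf (-j), Finset.mem_image_of_mem _ (hsymm j hj.1), ?_⟩
      have hnegQ : ∀ z ∈ Qset S, -z ∈ Qset S := by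
        intro z hz k hk
        have := hz (-k) (hsymm k hk)
        simpa using this
      obtain ⟨hj1, hj2⟩ := hyf2 (-j) ⟨-v, hnegQ v hvQ, by simp [hj.2]⟩
      have hyv : -yf (-j) = v := by
        by_contra hne
        have h1 : c (-v) ≤ c (yf (-j)) := hj2 (-v) (hnegQ v hvQ) (by simp [hj.2])
        have h2 := hmin (-yf (-j) - v) (by
          intro k hk
          rw [hJ, Finset.mem_filter] at hk
          rw [map_sub, hk.2]
          have := hnegQ _ (hyf1 (-j)) k hk.1
          linarith) (by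
            rw [map_sub, hj.2, map_neg]
            simp only [LinearMap.neg_apply] at hj1
            linarith) (sub_ne_zero.mpr hne)
        rw [map_sub, map_neg] at h2
        rw [map_neg] at h1
        linarith
      have : a (yf (-j)) = - a v := by
        rw [← hyv, map_neg, neg_neg]
      rw [this, abs_neg]
      exact lt_of_lt_of_le hav (le_abs_self _)

end FacetRep
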